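import Pool.Agent.Lib.MP_cc0c1a_nt.Sub35.Spec

/-!
# MP_cc0c1a_nt, project Sub: A2, planes
-/

namespace MPcc0Sub

open MvPolynomial Filter Topology Matrix

/-- choice of indices with rapidly decreasing scale -/
lemma a2_choose (T : ℕ → ℝ) (hT : Tendsto T atTop atTop) (p : ℕ → Prop) (hp : ∀ᶠ k in atTop, p k)
    (ρ : ℝ) (m : ℕ) : ∃ k : Fin m → ℕ, (∀ h, p (k h)) ∧
      ∀ h h' : Fin m, h < h' → ρ * T (k h') ≤ T (k h) := by
  induction m with
  | zero => exact ⟨fun h => h.elim0, fun h => h.elim0, fun h => h.elim0⟩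
  | succ m ih =>
    obtain ⟨k, hk1, hk2⟩ := ih
    have h1 : ∀ᶠ n in atTop, ∀ h : Fin m, ρ * T (k h) ≤ T n :=
      eventually_all.2 fun h => hT.eventually (eventually_ge_atTop _)
    obtain ⟨n, hn1, hn2⟩ := (hp.and h1).exists
    refine ⟨Fin.cons n k, ?_, ?_⟩
    · intro h
      refine Fin.cases ?_ (fun i => ?_) h
      · simpa using hn1
      · simpa using hk1 i
    · intro h h' hlt
      obtain ⟨j', rfl⟩ : ∃ j', h' = Fin.succ j' :=
        Fin.exists_succ_eq_of_ne_zero (by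
          intro e
          rw [e] at hlt
          exact absurd hlt (Fin.not_lt_zero _)) |>.imp fun _ h => h.symm
      refine Fin.cases (fun _ => ?_) (fun i hi => ?_) h hlt
      · simpa using hn2 j'
      · simpa using hk2 i j' (by simpa using hi)

/-- the cross product of independent vectors is not zero -/
lemma a2_cross_ne {u v : Fin 3 → ℤ} (h : LinearIndependent ℤ ![u, v]) : crossProduct u v ≠ 0 := by
  intro hz
  rw [LinearIndependent.pair_iff] at h
  have h0 := congrFun hz 0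
  have h1 := congrFun hz 1
  have h2 := congrFun hz 2
  simp [cross_apply] at h0 h1 h2
  have hu : ∀ i, u i = 0 := by
    intro i
    have := h (-(v i)) (u i) (by
      funext j
      fin_cases i <;> fin_cases j <;>
        simp only [Pi.add_apply, Pi.smul_apply, smul_eq_mul, Pi.zero_apply, Fin.zero_eta,
          Fin.mk_one, Fin.reduceFinMk] <;> linarith)
    exact this.2
  have := h 1 0 (by
    funext j
    simp [hu j])
  exact one_ne_zero this.1

/-- a primitive vector orthogonal to two independent vectors -/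
lemma a2_primitive {u v : Fin 3 → ℤ} (h : LinearIndependent ℤ ![u, v]) :
    ∃ M : Fin 3 → ℤ, M ≠ 0 ∧ M ⬝ᵥ u = 0 ∧ M ⬝ᵥ v = 0 ∧ ∀ d : ℤ, (∀ i, d ∣ M i) → IsUnit d := by
  classical
  have hex : ∃ n : ℕ, ∃ M : Fin 3 → ℤ, M ≠ 0 ∧ M ⬝ᵥ u = 0 ∧ M ⬝ᵥ v = 0 ∧
      ∑ i, (M i).natAbs = n := by
    refine ⟨_, crossProduct u v, a2_cross_ne h, ?_, ?_, rfl⟩
    · rw [dotProduct_comm]; exact dot_self_cross u v
    · rw [dotProduct_comm]; exact dot_cross_self u v
  obtain ⟨M, hM0, hMu, hMv, hMs⟩ := Nat.find_spec hex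
  refine ⟨M, hM0, hMu, hMv, ?_⟩
  intro d hd
  choose M' hM' using hd
  have hMe : M = d • M' := by
    funext i
    simp [hM' i]
  have hd0 : d ≠ 0 := by
    intro e
    apply hM0
    rw [hMe, e, zero_smul]
  have hM'0 : M' ≠ 0 := by
    intro e
    apply hM0
    rw [hMe, e, smul_zero]
  have h1 : M' ⬝ᵥ u = 0 := by
    rw [hMe, smul_dotProduct, smul_eq_mul] at hMu
    exact (mul_eq_zero.1 hMu).resolve_left hd0
  have h2 : M' ⬝ᵥ v = 0 := by
    rw [hMe, smul_dotProduct, smul_eq_mul] at hMv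
    exact (mul_eq_zero.1 hMv).resolve_left hd0
  have h3 : Nat.find hex ≤ ∑ i, (M' i).natAbs := Nat.find_min' hex ⟨M', hM'0, h1, h2, rfl⟩
  have h4 : ∑ i, (M i).natAbs = d.natAbs * ∑ i, (M' i).natAbs := by
    rw [Finset.mul_sum]
    apply Finset.sum_congr rfl
    intro i _
    rw [hM' i, Int.natAbs_mul]
  have h5 : 0 < ∑ i, (M' i).natAbs := by
    rw [Nat.pos_iff_ne_zero]
    intro e
    apply hM'0
    funext i
    have := (Finset.sum_eq_zero_iff.1 e) i (Finset.mem_univ i)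
    simpa using this
  rw [← hMs, h4] at h3
  have h6 : d.natAbs ≤ 1 := by
    by_contra hlt
    push Not at hlt
    nlinarith
  have h7 : d.natAbs = 1 := by
    have : 0 < d.natAbs := Int.natAbs_pos.2 hd0
    omega
  exact Int.isUnit_iff_natAbs_eq.2 h7

lemma a2_len_nonneg {σ : Type} (P : MvPolynomial σ ℤ) : 0 ≤ len P := by
  unfold len wlen
  apply Finset.sum_nonneg
  intro j _
  apply mul_nonneg (abs_nonneg _)
  apply Finset.prod_nonneg
  intro s _
  positivity

theorem thmA (hr : RothAll) (hx : AuxPoly) (hv : Vanish) (hc : Coord) (hs : Specialize)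
    (hh : HeightGrowth) : ThmA := by
  intro S L T e A θ α u v hsys hlin hu hvb
  by_contra hcon
  have hcon' : ∀ M : Fin 3 → ℤ, M ≠ 0 → ∀ᶠ k in atTop, ¬ (M ⬝ᵥ u k = 0 ∧ M ⬝ᵥ v k = 0) := by
    intro M hM
    by_contra hne
    exact hcon ⟨M, hM, hne⟩
  obtain ⟨c, hc0, hcev⟩ := hh S L T e A θ α u v hsys hlin hu hvb hcon'
  have hTpos : ∀ᶠ k in atTop, 0 < T k := hsys.T_top.eventually (eventually_gt_atTop 0)
  have hθ : ∀ i, ∀ p ∈ S, 0 ≤ θ i p := by
    intro i p hp
    apply ge_of_tendsto (hsys.e_lim i p hp)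
    filter_upwards [hTpos] with k hk
    positivity
  obtain ⟨K₁, hK₁, hP2⟩ := hx L hsys.det
  obtain ⟨ε, hε0, hε1, η, hη0, t0, ht0, hE3⟩ :=
    hv S L θ α K₁ hsys.prime hθ hsys.gap hK₁ hsys.det
  obtain ⟨m0, hm0⟩ := hP2 ε hε0
  obtain ⟨m, hmm0, hm1⟩ : ∃ m : ℕ, m0 ≤ m ∧ 1 ≤ m := ⟨max m0 1, le_max_left _ _, le_max_right _ _⟩
  have hmR : (1 : ℝ) ≤ m := by exact_mod_cast hm1
  have hτ : 0 < η * m := by positivity
  obtain ⟨ω, hω0, K, hK1, hroth⟩ := hr m (η * m) hτ
  have hlogK : 0 ≤ Real.log K₁ := Real.log_nonneg hK₁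
  obtain ⟨t1, ht10, ht1c⟩ : ∃ t1 : ℝ, t0 ≤ t1 ∧ 8 * K * (1 + m * Real.log K₁) ≤ c * t1 := by
    refine ⟨max t0 (8 * K * (1 + m * Real.log K₁) / c), le_max_left _ _, ?_⟩
    have := le_max_right t0 (8 * K * (1 + m * Real.log K₁) / c)
    calc 8 * K * (1 + m * Real.log K₁) = c * (8 * K * (1 + m * Real.log K₁) / c) := by
          field_simp
      _ ≤ c * max t0 (8 * K * (1 + m * Real.log K₁) / c) :=
          mul_le_mul_of_nonneg_left this hc0.le
  have ht1pos : 0 < t1 := by linarith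
  -- the good indices
  have hgood : ∀ᶠ k in atTop, (t1 ≤ T k) ∧
      (∀ M : Fin 3 → ℤ, M ≠ 0 → M ⬝ᵥ u k = 0 → M ⬝ᵥ v k = 0 →
        ∃ i, Real.exp (c * T k) ≤ |(M i : ℝ)|) ∧
      (∀ i, |Real.log (A k i) / T k - α i| ≤ ε) ∧
      (∀ i, ∀ p ∈ S, |(e k i p : ℝ) / T k - θ i p| ≤ ε) := by
    have e1 : ∀ᶠ k in atTop, t1 ≤ T k := hsys.T_top.eventually (eventually_ge_atTop t1)
    have e2 : ∀ᶠ k in atTop, ∀ i, |Real.log (A k i) / T k - α i| ≤ ε := by
      rw [eventually_all]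
      intro i
      have := (hsys.A_lim i).eventually (Metric.closedBall_mem_nhds (α i) hε0)
      filter_upwards [this] with k hk
      rwa [Real.dist_eq] at hk
    have e3 : ∀ᶠ k in atTop, ∀ i, ∀ p ∈ S, |(e k i p : ℝ) / T k - θ i p| ≤ ε := by
      rw [eventually_all]
      intro i
      rw [Filter.eventually_all_finset]
      intro p hp
      have := (hsys.e_lim i p hp).eventually (Metric.closedBall_mem_nhds (θ i p) hε0)
      filter_upwards [this] with k hk
      rwa [Real.dist_eq] at hk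
    filter_upwards [e1, hcev, e2, e3] with k h1 h2 h3 h4
    exact ⟨h1, h2, h3, h4⟩
  obtain ⟨k, hk1, hk2⟩ := a2_choose T hsys.T_top _ hgood (2 / ω) m
  have hTh : ∀ h, 0 < T (k h) := fun h => lt_of_lt_of_le ht1pos (hk1 h).1
  obtain ⟨R, hRt, hRT⟩ : ∃ R : ℝ, t0 ≤ R ∧ ∀ h, T (k h) ≤ ε * R := by
    have hnn : ∀ h ∈ (Finset.univ : Finset (Fin m)), 0 ≤ T (k h) / ε :=
      fun h _ => div_nonneg (hTh h).le hε0.le
    refine ⟨t0 + ∑ h, T (k h) / ε, ?_, ?_⟩
    · have := Finset.sum_nonneg hnn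
      linarith
    · intro h
      have h1 := Finset.single_le_sum hnn (Finset.mem_univ h)
      calc T (k h) = ε * (T (k h) / ε) := by field_simp
        _ ≤ ε * (t0 + ∑ h, T (k h) / ε) := by
            apply mul_le_mul_of_nonneg_left _ hε0.le
            linarith
  have hRpos : 0 < R := by linarith
  have hRT1 : ∀ h, T (k h) ≤ R := by
    intro h
    have := hRT h
    nlinarith
  -- the degrees
  obtain ⟨r, hrdef⟩ : ∃ r : Fin m → ℕ, ∀ h, r h = ⌈R / T (k h)⌉₊ := ⟨_, fun h => rfl⟩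
  have hr1 : ∀ h, R / T (k h) ≤ r h := by
    intro h; rw [hrdef h]; exact Nat.le_ceil _
  have hr2 : ∀ h, (r h : ℝ) ≤ R / T (k h) + 1 := by
    intro h; rw [hrdef h]
    exact (Nat.ceil_lt_add_one (div_nonneg hRpos.le (hTh h).le)).le
  have hrpos : ∀ h, 0 < r h := by
    intro h
    have h1 : 0 < R / T (k h) := div_pos hRpos (hTh h)
    have h2 := lt_of_lt_of_le h1 (hr1 h)
    exact_mod_cast h2
  have hrT1 : ∀ h, R ≤ r h * T (k h) := by
    intro h
    have := hr1 h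
    rwa [div_le_iff₀ (hTh h)] at this
  have hrT2 : ∀ h, r h * T (k h) ≤ (1 + ε) * R := by
    intro h
    have h1 := mul_le_mul_of_nonneg_right (hr2 h) (hTh h).le
    have h2 : (R / T (k h) + 1) * T (k h) = R + T (k h) := by
      have := (hTh h).ne'
      field_simp
    have h3 := hRT h
    linarith
  have hr3 : ∀ h, (r h : ℝ) ≤ 2 * R / T (k h) := by
    intro h
    have h1 : 1 ≤ R / T (k h) := by
      rw [le_div_iff₀ (hTh h), one_mul]; exact hRT1 h
    have h2 := hr2 h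
    have h3 : 2 * R / T (k h) = R / T (k h) + R / T (k h) := by ring
    linarith
  have hr4 : ∀ h, (r h : ℝ) ≤ 2 * R / t1 := by
    intro h
    refine (hr3 h).trans ?_
    exact div_le_div_of_nonneg_left (by linarith) ht1pos (hk1 h).1
  have hrω : ∀ h h' : Fin m, h < h' → (r h : ℝ) ≤ ω * r h' := by
    intro h h' hlt
    have h1 := hk2 h h' hlt
    have h2 : 2 * R / T (k h) ≤ ω * (R / T (k h')) := by
      rw [div_le_iff₀ (hTh h)]
      have hq : 0 ≤ ω * (R / T (k h')) := by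
        have := div_nonneg hRpos.le (hTh h').le
        positivity
      have h3 := mul_le_mul_of_nonneg_left h1 hq
      have h4 : ω * (R / T (k h')) * (2 / ω * T (k h')) = 2 * R := by
        have := (hTh h').ne'
        field_simp
      linarith
    calc (r h : ℝ) ≤ 2 * R / T (k h) := hr3 h
      _ ≤ ω * (R / T (k h')) := h2
      _ ≤ ω * r h' := mul_le_mul_of_nonneg_left (hr1 h') hω0.le
  -- the auxiliary polynomial
  obtain ⟨P, Q, hP0, hPh, hQh, hPb, hQb, hPl, hQl, hPQ⟩ := hm0 m hmm0 r hrpos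
  -- the planes
  have hplane : ∀ h : Fin m, ∃ (M : Fin 3 → ℤ) (d d' : Fin 3) (p q : ℤ), M ≠ 0 ∧
      M ⬝ᵥ u (k h) = 0 ∧ M ⬝ᵥ v (k h) = 0 ∧ d ≠ d' ∧ M d ≠ 0 ∧ IsCoprime p q ∧ q ≠ 0 ∧
      p * M d = -(q * M d') ∧ ∀ i, |M i| ≤ (max |p| |q|) ^ 2 := by
    intro h
    obtain ⟨M, hM0, hMu, hMv, hMp⟩ := a2_primitive (hlin (k h))
    obtain ⟨d, d', p, q, h1, h2, h3, h4, h5, h6⟩ := hc M hM0 hMp
    exact ⟨M, d, d', p, q, hM0, hMu, hMv, h1, h2, h3, h4, h5, h6⟩
  choose M d d' p q hM0 hMu hMv hdd hMd hpq hq0 hpM hMle using hplane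
  have hidx : ∀ κ ∈ (lsub (fun h => cmat (u (k h)) (v (k h)) (d h)) P).support,
      η * m ≤ ∑ h, (κ (h, 2) : ℝ) / r h := by
    refine hE3 m R (fun h => T (k h)) r (fun h => e (k h)) (fun h => A (k h)) (fun h => u (k h))
      (fun h => v (k h)) d P Q (by omega) hRt (fun h => ht10.trans (hk1 h).1) hrpos
      (fun h => ⟨hrT1 h, hrT2 h⟩) (fun h i => ⟨hsys.A_pos _ _, (hk1 h).2.2.1 i⟩)
      (fun h i p hp => (hk1 h).2.2.2 i p hp) (fun h i p hp => ⟨(hu _ i).1 p hp, (hvb _ i).1 p hp⟩)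
      (fun h i => (hu _ i).2) (fun h i => (hvb _ i).2) hPh hQh hPb hQb hQl hPQ
  obtain ⟨F, hF0, hFd, hFl, hFi⟩ := hs m r (η * m) P (fun h => u (k h)) (fun h => v (k h)) M d d'
    hP0 hPh hdd hMd (fun h => hlin (k h)) hMu hMv hidx
  have hpt : (fun h => -(M h (d' h) : ℚ) / (M h (d h) : ℚ)) = fun h => (p h : ℚ) / (q h : ℚ) := by
    funext h
    have h1 : (M h (d h) : ℚ) ≠ 0 := by exact_mod_cast hMd h
    have h2 : (q h : ℚ) ≠ 0 := by exact_mod_cast hq0 h
    have h3 : (p h : ℚ) * M h (d h) = -(q h * M h (d' h)) := by exact_mod_cast hpM h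
    rw [div_eq_div_iff h1 h2]
    linarith
  rw [hpt] at hFi
  -- Roth's lemma
  have hBnn : 0 ≤ 2 * R * (1 + m * Real.log K₁) / t1 := by positivity
  refine hroth r F p q (2 * R * (1 + m * Real.log K₁) / t1) hrpos hrω hF0 hFd hq0 hpq ?_ ?_ ?_ hFi
  · intro h
    refine (hr4 h).trans ?_
    apply div_le_div_of_nonneg_right _ ht1pos.le
    have : 0 ≤ (m : ℝ) * Real.log K₁ := by positivity
    nlinarith
  · rcases (a2_len_nonneg F).eq_or_lt with h0 | h0
    · rw [← h0, Real.log_zero]; exact hBnn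
    · have h1 : Real.log (len F) ≤ Real.log (K₁ ^ (∑ h, r h)) :=
        Real.log_le_log h0 (hFl.trans hPl)
      rw [Real.log_pow] at h1
      refine h1.trans ?_
      have h2 : ((∑ h, r h : ℕ) : ℝ) ≤ m * (2 * R / t1) := by
        push_cast
        calc ∑ h, (r h : ℝ) ≤ ∑ _h : Fin m, 2 * R / t1 := Finset.sum_le_sum fun h _ => hr4 h
          _ = m * (2 * R / t1) := by simp
      calc ((∑ h, r h : ℕ) : ℝ) * Real.log K₁ ≤ m * (2 * R / t1) * Real.log K₁ :=
            mul_le_mul_of_nonneg_right h2 hlogK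
        _ = 2 * R * (m * Real.log K₁) / t1 := by ring
        _ ≤ 2 * R * (1 + m * Real.log K₁) / t1 := by
            apply div_le_div_of_nonneg_right _ ht1pos.le
            nlinarith
  · intro h
    obtain ⟨i, hi⟩ := (hk1 h).2.1 (M h) (hM0 h) (hMu h) (hMv h)
    have h1 : |(M h i : ℝ)| ≤ (max |(p h : ℝ)| |(q h : ℝ)|) ^ 2 := by
      have := hMle h i
      exact_mod_cast this
    have hmaxpos : 0 < max |(p h : ℝ)| |(q h : ℝ)| := by
      have : 0 < |(q h : ℝ)| := abs_pos.2 (by exact_mod_cast hq0 h)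
      exact lt_of_lt_of_le this (le_max_right _ _)
    have h2 : c * T (k h) ≤ 2 * Real.log (max |(p h : ℝ)| |(q h : ℝ)|) := by
      have h3 := Real.log_le_log (Real.exp_pos _) (hi.trans h1)
      rw [Real.log_exp, Real.log_pow] at h3
      exact_mod_cast h3
    have hrh : 0 ≤ (r h : ℝ) := by positivity
    have h4 : c * R / 2 ≤ r h * Real.log (max |(p h : ℝ)| |(q h : ℝ)|) := by
      have h5 := mul_le_mul_of_nonneg_left h2 hrh
      have h6 := mul_le_mul_of_nonneg_left (hrT1 h) hc0.le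
      nlinarith
    refine le_trans ?_ h4
    have h7 : K * (2 * R * (1 + m * Real.log K₁) / t1) =
        R / (4 * t1) * (8 * K * (1 + m * Real.log K₁)) := by
      field_simp
      ring
    rw [h7]
    calc R / (4 * t1) * (8 * K * (1 + m * Real.log K₁)) ≤ R / (4 * t1) * (c * t1) := by
          apply mul_le_mul_of_nonneg_left ht1c
          positivity
      _ = c * R / 4 := by field_simp
      _ ≤ c * R / 2 := by
          have : 0 ≤ c * R := by positivity
          linarith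

end MPcc0Sub
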