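import Mathlib

/-!
# MP_cc0c1a_nt, project Sub: definitions

A three-variable subspace theorem over `ℚ` with finitely many primes, rational linear forms at the
real place and coordinate forms at the primes.
-/

namespace MPcc0Sub

open MvPolynomial Filter Topology

/-! ## Length, divided derivatives, shift, index -/

/-- Weighted length of an integer polynomial. -/
noncomputable def wlen {σ : Type} (w : σ → ℝ) (P : MvPolynomial σ ℤ) : ℝ :=
  ∑ j ∈ P.support, |((coeff j P : ℤ) : ℝ)| * j.prod (fun s k => w s ^ k)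

/-- Length (sum of the absolute values of the coefficients). -/
noncomputable def len {σ : Type} (P : MvPolynomial σ ℤ) : ℝ := wlen (fun _ => 1) P

/-- Length of a polynomial in one variable. -/
noncomputable def plen (G : Polynomial ℤ) : ℝ := ∑ j ∈ G.support, |((G.coeff j : ℤ) : ℝ)|

/-- Divided derivative: the coefficient of `Y^I` in `P(X + Y)`. -/
noncomputable def dd {σ R : Type} [CommSemiring R] (I : σ →₀ ℕ) (P : MvPolynomial σ R) :
    MvPolynomial σ R :=
  ∑ j ∈ P.support, monomial (j - I) (coeff j P * ((I.prod fun s i => (j s).choose i : ℕ) : R))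

/-- `P(X + β)`. -/
noncomputable def shift {σ R : Type} [CommSemiring R] (β : σ → R) (P : MvPolynomial σ R) :
    MvPolynomial σ R :=
  bind₁ (fun s => X s + C (β s)) P

/-- All monomials of `P` have weight at least `τ` with respect to the degrees `r`. -/
def IdxGe {σ R : Type} [CommSemiring R] (r : σ → ℕ) (τ : ℝ) (P : MvPolynomial σ R) : Prop :=
  ∀ j ∈ P.support, τ ≤ j.sum fun s k => (k : ℝ) / r s

/-- The polynomial over `ℚ`. -/
noncomputable def toQ {σ : Type} (P : MvPolynomial σ ℤ) : MvPolynomial σ ℚ :=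
  map (Int.castRingHom ℚ) P

/-! ## Roth's lemma at rational points -/

/-- Roth's lemma in `m` variables at rational points (variable `0` has the smallest degree). -/
def RothLemma (m : ℕ) : Prop :=
  ∀ τ : ℝ, 0 < τ → ∃ ω : ℝ, 0 < ω ∧ ∃ K : ℝ, 1 ≤ K ∧
    ∀ (r : Fin m → ℕ) (P : MvPolynomial (Fin m) ℤ) (p q : Fin m → ℤ) (B : ℝ),
      (∀ h, 0 < r h) → (∀ h h' : Fin m, h < h' → (r h : ℝ) ≤ ω * r h') →
      P ≠ 0 → (∀ h, P.degreeOf h ≤ r h) → (∀ h, q h ≠ 0) → (∀ h, IsCoprime (p h) (q h)) →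
      (∀ h, (r h : ℝ) ≤ B) → Real.log (len P) ≤ B →
      (∀ h, K * B ≤ r h * Real.log (max |(p h : ℝ)| |(q h : ℝ)|)) →
      ¬ IdxGe r τ (shift (fun h => (p h : ℚ) / (q h : ℚ)) (toQ P))

/-- The mixed Wronskian matrix of `P`: rows `s` (derivatives in the variables `1, …, m`), columns
`t` (derivatives of order `t` in the variable `0`). -/
noncomputable def wmat {m k : ℕ} (I : Fin (k + 1) → (Fin m →₀ ℕ)) (P : MvPolynomial (Fin (m + 1)) ℤ) :
    Matrix (Fin (k + 1)) (Fin (k + 1)) (MvPolynomial (Fin (m + 1)) ℤ) :=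
  Matrix.of fun s t => dd (Finsupp.cons (t : ℕ) (I s)) P

/-! ## Polynomials in `m` blocks of three variables -/

/-- Homogeneous of degree `r h` in the block `h`. -/
def MHom {m : ℕ} (r : Fin m → ℕ) (P : MvPolynomial (Fin m × Fin 3) ℤ) : Prop :=
  ∀ j ∈ P.support, ∀ h, j (h, 0) + j (h, 1) + j (h, 2) = r h

/-- Balanced: every coordinate takes at least its share (up to `ε`) in every monomial. -/
def Bal {m : ℕ} (ε : ℝ) (r : Fin m → ℕ) (P : MvPolynomial (Fin m × Fin 3) ℤ) : Prop :=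
  ∀ j ∈ P.support, ∀ i : Fin 3, (1 / 3 - ε) * m ≤ ∑ h, (j (h, i) : ℝ) / r h

/-- Blockwise linear substitution: `(lsub N P)(x) = P((N_h x_h)_h)`. -/
noncomputable def lsub {m : ℕ} (N : Fin m → Matrix (Fin 3) (Fin 3) ℤ)
    (P : MvPolynomial (Fin m × Fin 3) ℤ) : MvPolynomial (Fin m × Fin 3) ℤ :=
  bind₁ (fun s => ∑ i : Fin 3, C (N s.1 s.2 i) * X (s.1, i)) P

/-- The matrix with columns `u`, `v`, `e_c`. -/
def cmat (u v : Fin 3 → ℤ) (c : Fin 3) : Matrix (Fin 3) (Fin 3) ℤ :=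
  Matrix.of fun i => ![u i, v i, if i = c then 1 else 0]

/-- The exponents of the multihomogeneous monomials of degree `r`. -/
def exps {m : ℕ} (r : Fin m → ℕ) : Finset (Fin m → Fin 3 → ℕ) :=
  Fintype.piFinset fun h => Finset.Nat.antidiagonalTuple 3 (r h)

/-! ## Systems of inequalities -/

/-- A sequence of systems of inequalities `|L_i(x)| ≤ A_i`, `p^(e_ip) ∣ x_i`, with exponents
relative to the scale `T → ∞` and volume `e^(-gap T)`. -/
structure Sys (S : Finset ℕ) (L : Matrix (Fin 3) (Fin 3) ℤ) (T : ℕ → ℝ)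
    (e : ℕ → Fin 3 → ℕ → ℕ) (A : ℕ → Fin 3 → ℝ) (θ : Fin 3 → ℕ → ℝ) (α : Fin 3 → ℝ) : Prop where
  prime : ∀ p ∈ S, p.Prime
  det : L.det ≠ 0
  T_top : Tendsto T atTop atTop
  A_pos : ∀ k i, 0 < A k i
  e_lim : ∀ i, ∀ p ∈ S, Tendsto (fun k => (e k i p : ℝ) / T k) atTop (𝓝 (θ i p))
  A_lim : ∀ i, Tendsto (fun k => Real.log (A k i) / T k) atTop (𝓝 (α i))
  gap : ∑ i, α i < ∑ i, ∑ p ∈ S, θ i p * Real.log p

/-- The vectors `u k` solve the systems. -/
def InBox (S : Finset ℕ) (L : Matrix (Fin 3) (Fin 3) ℤ) (e : ℕ → Fin 3 → ℕ → ℕ)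
    (A : ℕ → Fin 3 → ℝ) (u : ℕ → Fin 3 → ℤ) : Prop :=
  ∀ k i, (∀ p ∈ S, (p : ℤ) ^ e k i p ∣ u k i) ∧ |((L.mulVec (u k) i : ℤ) : ℝ)| ≤ A k i

/-- The real vector of an integer vector. -/
def rv (x : Fin 3 → ℤ) : Fin 3 → ℝ := fun i => (x i : ℝ)

end MPcc0Sub
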