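import Pool.Agent.Lib.MP_cc0c1a_nt.Sub35.Spec

/-!
# MP_cc0c1a_nt, project Sub, E3: vanishing of the low coefficients
-/

namespace MPcc0Sub

open MvPolynomial Filter Topology Matrix

/-- the weights at one prime -/
theorem e3_low {m : ℕ} {R ε η C0 : ℝ} {T : Fin m → ℝ} {r : Fin m → ℕ} {e : Fin m → Fin 3 → ℕ}
    {θ : Fin 3 → ℝ} (c : Fin m → Fin 3) {P : MvPolynomial (Fin m × Fin 3) ℤ}
    {κ : (Fin m × Fin 3) →₀ ℕ} (hR : 0 < R) (hε0 : 0 < ε) (hε : ε ≤ 1 / 6) (hT : ∀ h, 0 < T h)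
    (hr : ∀ h, 0 < r h) (hRT : ∀ h, R ≤ r h * T h ∧ r h * T h ≤ (1 + ε) * R)
    (hθ : ∀ i, 0 ≤ θ i ∧ θ i + 1 ≤ C0) (he : ∀ h i, |(e h i : ℝ) / T h - θ i| ≤ ε)
    (hP : Bal ε r P) (hκ : ∑ h, (κ (h, 2) : ℝ) / r h ≤ η * m) {j : (Fin m × Fin 3) →₀ ℕ}
    (hj : j ∈ P.support) :
    R * m * ((∑ i, θ i) / 3 - 3 * C0 * ε - 2 * C0 * η) + ∑ h, (κ (h, 2) : ℝ) * e h (c h) ≤
      ∑ h, ∑ i, (j (h, i) : ℝ) * e h i := by
  have hC0 : 0 < C0 := by linarith [(hθ 0).1, (hθ 0).2]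
  have hrr : ∀ h, (0 : ℝ) < r h := fun h => by exact_mod_cast hr h
  have hlo : ∀ i, R * m * (θ i / 3 - C0 * ε) ≤ ∑ h, (j (h, i) : ℝ) * e h i := by
    intro i
    have ht0 : 0 ≤ max 0 (θ i - ε) := le_max_left _ _
    have h1 : ∀ h, max 0 (θ i - ε) * R * ((j (h, i) : ℝ) / r h) ≤ (j (h, i) : ℝ) * e h i := by
      intro h
      have h2 : max 0 (θ i - ε) * T h ≤ e h i := by
        rcases max_cases 0 (θ i - ε) with ⟨h3, _⟩ | ⟨h3, _⟩
        · rw [h3, zero_mul]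
          exact Nat.cast_nonneg _
        · rw [h3]
          have h4 := (abs_le.1 (he h i)).1
          have h5 : θ i - ε ≤ (e h i : ℝ) / T h := by linarith
          exact (le_div_iff₀ (hT h)).1 h5
      have h6 : R / r h ≤ T h := by
        rw [div_le_iff₀ (hrr h)]
        linarith [(hRT h).1, mul_comm (r h : ℝ) (T h)]
      have h7 : max 0 (θ i - ε) * (R / r h) ≤ e h i :=
        (mul_le_mul_of_nonneg_left h6 ht0).trans h2
      calc max 0 (θ i - ε) * R * ((j (h, i) : ℝ) / r h)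
          = (j (h, i) : ℝ) * (max 0 (θ i - ε) * (R / r h)) := by ring
        _ ≤ _ := mul_le_mul_of_nonneg_left h7 (Nat.cast_nonneg _)
    calc R * m * (θ i / 3 - C0 * ε) ≤ max 0 (θ i - ε) * R * ((1 / 3 - ε) * m) := by
          have h2 : θ i / 3 - C0 * ε ≤ max 0 (θ i - ε) * (1 / 3 - ε) := by
            have h3 : (θ i - ε) * (1 / 3 - ε) ≤ max 0 (θ i - ε) * (1 / 3 - ε) :=
              mul_le_mul_of_nonneg_right (le_max_right _ _) (by linarith)
            have h4 : (θ i + 1) * ε ≤ C0 * ε := mul_le_mul_of_nonneg_right (hθ i).2 hε0.le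
            nlinarith [h3, h4]
          calc R * m * (θ i / 3 - C0 * ε) ≤ R * m * (max 0 (θ i - ε) * (1 / 3 - ε)) :=
                mul_le_mul_of_nonneg_left h2 (by positivity)
            _ = _ := by ring
      _ ≤ max 0 (θ i - ε) * R * ∑ h, (j (h, i) : ℝ) / r h :=
          mul_le_mul_of_nonneg_left (hP j hj i) (by positivity)
      _ = ∑ h, max 0 (θ i - ε) * R * ((j (h, i) : ℝ) / r h) := by rw [Finset.mul_sum]
      _ ≤ _ := Finset.sum_le_sum fun h _ => h1 h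
  have hkap : ∑ h, (κ (h, 2) : ℝ) * e h (c h) ≤ 2 * C0 * R * (η * m) := by
    have h1 : ∀ h, (κ (h, 2) : ℝ) * e h (c h) ≤ 2 * C0 * R * ((κ (h, 2) : ℝ) / r h) := by
      intro h
      have h4 := (abs_le.1 (he h (c h))).2
      have h5 : (e h (c h) : ℝ) / T h ≤ C0 := by linarith [(hθ (c h)).2]
      have h6 : (e h (c h) : ℝ) ≤ C0 * T h := (div_le_iff₀ (hT h)).1 h5
      have h7 : T h ≤ 2 * R / r h := by
        rw [le_div_iff₀ (hrr h)]
        nlinarith [(hRT h).2]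
      calc (κ (h, 2) : ℝ) * e h (c h) ≤ (κ (h, 2) : ℝ) * (C0 * (2 * R / r h)) :=
            mul_le_mul_of_nonneg_left (h6.trans (mul_le_mul_of_nonneg_left h7 hC0.le))
              (Nat.cast_nonneg _)
        _ = _ := by ring
    calc ∑ h, (κ (h, 2) : ℝ) * e h (c h) ≤ ∑ h, 2 * C0 * R * ((κ (h, 2) : ℝ) / r h) :=
          Finset.sum_le_sum fun h _ => h1 h
      _ = 2 * C0 * R * ∑ h, (κ (h, 2) : ℝ) / r h := by rw [Finset.mul_sum]
      _ ≤ _ := mul_le_mul_of_nonneg_left hκ (by positivity)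
  rw [Finset.sum_comm (s := Finset.univ) (t := Finset.univ)
    (f := fun h i => (j (h, i) : ℝ) * e h i)]
  rw [Fin.sum_univ_three, Fin.sum_univ_three]
  have l0 := hlo 0
  have l1 := hlo 1
  have l2 := hlo 2
  nlinarith [l0, l1, l2, hkap]

/-- the size of one monomial -/
theorem e3_up {m : ℕ} {R ε C0 b : ℝ} {T : Fin m → ℝ} {r : Fin m → ℕ} {A : Fin m → Fin 3 → ℝ}
    {α : Fin 3 → ℝ} {Q : MvPolynomial (Fin m × Fin 3) ℤ} (hR : 0 < R) (hε0 : 0 < ε)
    (hε : ε ≤ 1 / 6) (hT : ∀ h, 0 < T h) (hr : ∀ h, 0 < r h)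
    (hRT : ∀ h, R ≤ r h * T h ∧ r h * T h ≤ (1 + ε) * R) (hb : 0 < b)
    (hα : ∀ i, |α i| + 2 ≤ C0) (hA : ∀ h i, 0 < A h i ∧ |Real.log (A h i) / T h - α i| ≤ ε)
    (hQ : MHom r Q) (hQb : Bal ε r Q) {j : (Fin m × Fin 3) →₀ ℕ} (hj : j ∈ Q.support) :
    j.prod (fun s k => (b * A s.1 s.2) ^ k) ≤
      b ^ (∑ h, r h) * Real.exp (m * R * ((∑ i, α i) / 3 + ε * (10 + 18 * C0))) := by
  have hC0 : 0 < C0 := by linarith [hα 0, abs_nonneg (α 0)]
  have hrr : ∀ h, (0 : ℝ) < r h := fun h => by exact_mod_cast hr h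
  have hhom := hQ j hj
  have hbal := hQb j hj
  rw [Finsupp.prod_fintype _ _ (fun s => pow_zero _), Fintype.prod_prod_type]
  have e1 : ∀ h, ∏ i, (b * A h i) ^ j (h, i) =
      b ^ r h * Real.exp (∑ i, (j (h, i) : ℝ) * Real.log (A h i)) := by
    intro h
    rw [Real.exp_sum]
    have e2 : ∀ i, Real.exp ((j (h, i) : ℝ) * Real.log (A h i)) = A h i ^ j (h, i) := by
      intro i
      rw [mul_comm, ← Real.rpow_def_of_pos (hA h i).1, Real.rpow_natCast]
    simp only [e2, mul_pow, Finset.prod_mul_distrib]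
    congr 1
    rw [Fin.prod_univ_three, ← pow_add, ← pow_add, hhom h]
  simp only [e1]
  rw [Finset.prod_mul_distrib, Finset.prod_pow_eq_pow_sum, ← Real.exp_sum]
  refine mul_le_mul_of_nonneg_left (Real.exp_le_exp.2 ?_) (by positivity)
  -- each coordinate
  have hT2 : ∀ h, T h ≤ (1 + ε) * R / r h := fun h => by
    rw [le_div_iff₀ (hrr h)]
    linarith [(hRT h).2, mul_comm (r h : ℝ) (T h)]
  have f1 : ∀ h i, (j (h, i) : ℝ) * Real.log (A h i) ≤
      (α i + ε + C0) * ((1 + ε) * R) * ((j (h, i) : ℝ) / r h) - C0 * ((j (h, i) : ℝ) * T h) := by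
    intro h i
    have g1 := (abs_le.1 (hA h i).2).2
    have g2 : Real.log (A h i) / T h ≤ α i + ε := by linarith
    have g3 : Real.log (A h i) ≤ (α i + ε) * T h := (div_le_iff₀ (hT h)).1 g2
    have g4 : 0 ≤ α i + ε + C0 := by linarith [neg_abs_le (α i), hα i]
    have g5 : (α i + ε + C0) * T h ≤ (α i + ε + C0) * ((1 + ε) * R / r h) :=
      mul_le_mul_of_nonneg_left (hT2 h) g4
    have g6 : Real.log (A h i) ≤ (α i + ε + C0) * ((1 + ε) * R / r h) - C0 * T h := by linarith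
    calc (j (h, i) : ℝ) * Real.log (A h i)
        ≤ (j (h, i) : ℝ) * ((α i + ε + C0) * ((1 + ε) * R / r h) - C0 * T h) :=
          mul_le_mul_of_nonneg_left g6 (Nat.cast_nonneg _)
      _ = _ := by ring
  have f2 : ∀ h, ∑ i, C0 * ((j (h, i) : ℝ) * T h) = C0 * (r h * T h) := by
    intro h
    rw [Fin.sum_univ_three, ← hhom h]
    push_cast
    ring
  have hsum3 : (∑ h, (j (h, 0) : ℝ) / r h) + (∑ h, (j (h, 1) : ℝ) / r h) +
      ∑ h, (j (h, 2) : ℝ) / r h = m := by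
    rw [← Finset.sum_add_distrib, ← Finset.sum_add_distrib]
    have : ∀ h : Fin m, (j (h, 0) : ℝ) / r h + (j (h, 1) : ℝ) / r h + (j (h, 2) : ℝ) / r h = 1 := by
      intro h
      rw [← add_div, ← add_div, div_eq_one_iff_eq (hrr h).ne']
      exact_mod_cast hhom h
    rw [Finset.sum_congr rfl fun h _ => this h]
    simp
  have f3 : ∀ i, ∑ h, (j (h, i) : ℝ) / r h ≤ (1 / 3 + 2 * ε) * m := by
    have b0 := hbal 0
    have b1 := hbal 1
    have b2 := hbal 2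
    intro i
    have hi : i = 0 ∨ i = 1 ∨ i = 2 := by
      fin_cases i
      · exact Or.inl rfl
      · exact Or.inr (Or.inl rfl)
      · exact Or.inr (Or.inr rfl)
    rcases hi with rfl | rfl | rfl
    · linarith
    · linarith
    · linarith
  have f4 : ∀ i, ∑ h, (α i + ε + C0) * ((1 + ε) * R) * ((j (h, i) : ℝ) / r h) ≤
      (α i + ε + C0) * ((1 + ε) * R) * ((1 / 3 + 2 * ε) * m) := by
    intro i
    rw [← Finset.mul_sum]
    have g4 : 0 ≤ α i + ε + C0 := by linarith [neg_abs_le (α i), hα i]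
    exact mul_le_mul_of_nonneg_left (f3 i) (by positivity)
  calc ∑ h, ∑ i, (j (h, i) : ℝ) * Real.log (A h i)
      ≤ ∑ h, ∑ i, ((α i + ε + C0) * ((1 + ε) * R) * ((j (h, i) : ℝ) / r h) -
          C0 * ((j (h, i) : ℝ) * T h)) :=
        Finset.sum_le_sum fun h _ => Finset.sum_le_sum fun i _ => f1 h i
    _ = (∑ i, ∑ h, (α i + ε + C0) * ((1 + ε) * R) * ((j (h, i) : ℝ) / r h)) -
          ∑ h, C0 * (r h * T h) := by
        simp only [Finset.sum_sub_distrib, f2]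
        rw [Finset.sum_comm]
    _ ≤ (∑ i, (α i + ε + C0) * ((1 + ε) * R) * ((1 / 3 + 2 * ε) * m)) - ∑ _h : Fin m, C0 * R := by
        refine sub_le_sub (Finset.sum_le_sum fun i _ => f4 i) (Finset.sum_le_sum fun h _ => ?_)
        exact mul_le_mul_of_nonneg_left (hRT h).1 hC0.le
    _ = (m * R) * (((∑ i, α i) + 3 * ε + 3 * C0) * ((1 + ε) * (1 / 3 + 2 * ε)) - C0) := by
        rw [Finset.sum_const, Finset.card_univ, Fintype.card_fin, nsmul_eq_mul,
          Fin.sum_univ_three, Fin.sum_univ_three]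
        ring
    _ ≤ m * R * ((∑ i, α i) / 3 + ε * (10 + 18 * C0)) := by
        refine mul_le_mul_of_nonneg_left ?_ (by positivity)
        rw [Fin.sum_univ_three]
        have a0 := abs_le.1 (show |α 0| ≤ C0 - 2 by linarith [hα 0])
        have a1 := abs_le.1 (show |α 1| ≤ C0 - 2 by linarith [hα 1])
        have a2 := abs_le.1 (show |α 2| ≤ C0 - 2 by linarith [hα 2])
        have g1 : (1 + ε) * (1 / 3 + 2 * ε) ≤ 1 / 3 + 8 / 3 * ε := by nlinarith
        have g2 : 0 ≤ α 0 + α 1 + α 2 + 3 * ε + 3 * C0 := by linarith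
        have g3 : (α 0 + α 1 + α 2 + 3 * ε + 3 * C0) * ((1 + ε) * (1 / 3 + 2 * ε)) ≤
            (α 0 + α 1 + α 2 + 3 * ε + 3 * C0) * (1 / 3 + 8 / 3 * ε) :=
          mul_le_mul_of_nonneg_left g1 g2
        have g4 : (α 0 + α 1 + α 2 + 3 * ε + 3 * C0) * ε ≤ (6 * C0) * ε :=
          mul_le_mul_of_nonneg_right (by linarith) hε0.le
        nlinarith [g3, g4]

theorem lsub_C_mul {m : ℕ} (N : Fin m → Matrix (Fin 3) (Fin 3) ℤ) (a : ℤ)
    (P : MvPolynomial (Fin m × Fin 3) ℤ) : lsub N (C a * P) = C a * lsub N P := by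
  unfold lsub
  rw [map_mul, bind₁_C_right]

/-- a nonzero integer divisible by prime powers is large -/
theorem e3_dvd {S : Finset ℕ} (hS : ∀ p ∈ S, p.Prime) {z : ℤ} (hz : z ≠ 0) {E : ℕ → ℕ}
    (h : ∀ p ∈ S, (p : ℤ) ^ E p ∣ z) : ∑ p ∈ S, (E p : ℝ) * Real.log p ≤ Real.log |(z : ℝ)| := by
  have h1 : ∏ p ∈ S, (p : ℤ) ^ E p ∣ z := by
    refine Finset.prod_dvd_of_coprime ?_ h
    intro p hp q hq hpq
    refine IsCoprime.pow ?_
    rw [Nat.isCoprime_iff_coprime]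
    exact (Nat.coprime_primes (hS p hp) (hS q hq)).2 hpq
  have h2 : ∏ p ∈ S, (p : ℤ) ^ E p ≤ |z| :=
    Int.le_of_dvd (abs_pos.2 hz) ((dvd_abs _ _).2 h1)
  have h3 : ∏ p ∈ S, (p : ℝ) ^ E p ≤ |(z : ℝ)| := by exact_mod_cast h2
  have h4 : ∀ p ∈ S, (0 : ℝ) < (p : ℝ) ^ E p := fun p hp =>
    pow_pos (by exact_mod_cast (hS p hp).pos) _
  have h5 := Real.log_le_log (Finset.prod_pos h4) h3
  rw [Real.log_prod (fun p hp => (h4 p hp).ne')] at h5
  simpa only [Real.log_pow] using h5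

theorem vanish (_h1 : WLenFacts) (hd : DivCoeff) (ha : ArchCoeff) : Vanish := by
  intro S L θ α K hS hθ hgap hK hL
  obtain ⟨lam, hlam⟩ : ∃ lam : ℝ, lam = ∑ p ∈ S, Real.log p := ⟨_, rfl⟩
  have hlogp : ∀ p : ℕ, 0 ≤ Real.log (p : ℝ) := fun p => Real.log_natCast_nonneg p
  have hlam0 : 0 ≤ lam := by
    rw [hlam]
    exact Finset.sum_nonneg fun p _ => hlogp p
  obtain ⟨C0, hC0⟩ : ∃ C0 : ℝ, C0 = 2 + ∑ i, |α i| + ∑ i, ∑ p ∈ S, θ i p := ⟨_, rfl⟩
  obtain ⟨b, hb⟩ : ∃ b : ℝ, b = 2 + ∑ i, ∑ i', |((L i i' : ℤ) : ℝ)| := ⟨_, rfl⟩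
  obtain ⟨δ, hδ⟩ : ∃ δ : ℝ, δ = (∑ i, ∑ p ∈ S, θ i p * Real.log p) - ∑ i, α i := ⟨_, rfl⟩
  have hδ0 : 0 < δ := by rw [hδ]; linarith
  have hs1 : 0 ≤ ∑ i, |α i| := Finset.sum_nonneg fun i _ => abs_nonneg _
  have hs2 : 0 ≤ ∑ i, ∑ p ∈ S, θ i p :=
    Finset.sum_nonneg fun i _ => Finset.sum_nonneg fun p hp => hθ i p hp
  have hC02 : 2 ≤ C0 := by rw [hC0]; linarith
  have hαC : ∀ i, |α i| + 2 ≤ C0 := by
    intro i
    have h2 : |α i| ≤ ∑ i, |α i| :=
      Finset.single_le_sum (f := fun i => |α i|) (fun i _ => abs_nonneg _) (Finset.mem_univ i)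
    rw [hC0]
    linarith
  have hθC : ∀ i, ∀ p ∈ S, θ i p + 1 ≤ C0 := by
    intro i p hp
    have h2 : θ i p ≤ ∑ p ∈ S, θ i p :=
      Finset.single_le_sum (f := fun p => θ i p) (fun p hp => hθ i p hp) hp
    have h3 : ∑ p ∈ S, θ i p ≤ ∑ i, ∑ p ∈ S, θ i p :=
      Finset.single_le_sum (f := fun i => ∑ p ∈ S, θ i p)
        (fun i _ => Finset.sum_nonneg fun p hp => hθ i p hp) (Finset.mem_univ i)
    rw [hC0]
    linarith
  have hbL : ∀ i i', 2 + |((L i i' : ℤ) : ℝ)| ≤ b := by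
    intro i i'
    have h2 : |((L i i' : ℤ) : ℝ)| ≤ ∑ i', |((L i i' : ℤ) : ℝ)| :=
      Finset.single_le_sum (f := fun i' => |((L i i' : ℤ) : ℝ)|) (fun i _ => abs_nonneg _)
        (Finset.mem_univ i')
    have h3 : ∑ i', |((L i i' : ℤ) : ℝ)| ≤ ∑ i, ∑ i', |((L i i' : ℤ) : ℝ)| :=
      Finset.single_le_sum (f := fun i => ∑ i', |((L i i' : ℤ) : ℝ)|)
        (fun i _ => Finset.sum_nonneg fun _ _ => abs_nonneg _) (Finset.mem_univ i)
    rw [hb]
    linarith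
  have hb2 : 2 ≤ b := by linarith [hbL 0 0, abs_nonneg ((L 0 0 : ℤ) : ℝ)]
  have hlb : 0 ≤ Real.log b := Real.log_nonneg (by linarith)
  have hlK : 0 ≤ Real.log K := Real.log_nonneg hK
  obtain ⟨D, hD⟩ : ∃ D : ℝ, D = 10 + 18 * C0 + 3 * C0 * lam + (2 * C0 + 2 * C0 * lam) := ⟨_, rfl⟩
  have hD0 : 0 < D := by
    rw [hD]
    have : 0 ≤ C0 * lam := mul_nonneg (by linarith) hlam0
    linarith
  obtain ⟨ε, hε⟩ : ∃ ε : ℝ, ε = min (1 / 6) (δ / (9 * D)) := ⟨_, rfl⟩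
  have hε0 : 0 < ε := by
    rw [hε]
    exact lt_min (by norm_num) (by positivity)
  have hε6 : ε ≤ 1 / 6 := by
    rw [hε]
    exact min_le_left _ _
  have hεD : ε * D ≤ δ / 9 := by
    have h2 : ε ≤ δ / (9 * D) := by
      rw [hε]
      exact min_le_right _ _
    rw [le_div_iff₀ (by positivity)] at h2
    linarith
  obtain ⟨t0, ht0⟩ : ∃ t0 : ℝ, t0 = max 1 ((2 * (Real.log K + Real.log b) + lam) / (δ / 9)) :=
    ⟨_, rfl⟩
  have ht01 : 1 ≤ t0 := by
    rw [ht0]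
    exact le_max_left _ _
  have ht0δ : 2 * (Real.log K + Real.log b) + lam ≤ t0 * (δ / 9) := by
    rw [← div_le_iff₀ (by positivity), ht0]
    exact le_max_right _ _
  refine ⟨ε, hε0, by linarith, ε, hε0, t0, ht01, ?_⟩
  intro m R T r e A u v c P Q hm hR hT hr hRT hA he hdiv hLu hLv hP hQ hPb hQb hlen hPQ κ hκs
  by_contra hcon
  push Not at hcon
  have hκ : ∑ h, (κ (h, 2) : ℝ) / r h ≤ ε * m := hcon.le
  have hR0 : 0 < R := by linarith
  have hT0 : ∀ h, 0 < T h := fun h => by linarith [hT h]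
  have hm1 : (1 : ℝ) ≤ m := by exact_mod_cast hm
  have hrr : ∀ h, (0 : ℝ) < r h := fun h => by exact_mod_cast hr h
  obtain ⟨z, hz⟩ : ∃ z : ℤ, z = coeff κ (lsub (fun h => cmat (u h) (v h) (c h)) P) := ⟨_, rfl⟩
  have hz0 : z ≠ 0 := by
    rw [hz]
    exact mem_support_iff.1 hκs
  -- lower bound
  have hlow : R * m * ((∑ i, ∑ p ∈ S, θ i p * Real.log p) / 3 - (3 * C0 * ε + 2 * C0 * ε) * lam) -
      lam ≤ Real.log |(z : ℝ)| := by
    have h2 : ∀ p ∈ S, (p : ℤ) ^ ⌊R * m * ((∑ i, θ i p) / 3 - 3 * C0 * ε - 2 * C0 * ε)⌋₊ ∣ z := by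
      intro p hp
      rcases Nat.eq_zero_or_pos ⌊R * m * ((∑ i, θ i p) / 3 - 3 * C0 * ε - 2 * C0 * ε)⌋₊ with h3 | h3
      · rw [h3, pow_zero]
        exact one_dvd _
      · rw [hz]
        refine hd m _ p P u v c (fun h i => e h i p) κ (hS p hp).pos
          (fun h i => hdiv h i p hp) fun j hj => ?_
        have h4 := e3_low (e := fun h i => e h i p) (θ := fun i => θ i p) c hR0 hε0 hε6 hT0 hr hRT
          (fun i => ⟨hθ i p hp, hθC i p hp⟩) (fun h i => he h i p hp) hPb hκ hj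
        have h6 : ((⌊R * m * ((∑ i, θ i p) / 3 - 3 * C0 * ε - 2 * C0 * ε)⌋₊ : ℕ) : ℝ) ≤
            R * m * ((∑ i, θ i p) / 3 - 3 * C0 * ε - 2 * C0 * ε) := by
          refine Nat.floor_le ?_
          exact (Nat.pos_of_floor_pos h3).le
        have h7 : ((⌊R * m * ((∑ i, θ i p) / 3 - 3 * C0 * ε - 2 * C0 * ε)⌋₊ +
            ∑ h, κ (h, 2) * e h (c h) p : ℕ) : ℝ) ≤
            ((∑ h, ∑ i, j (h, i) * e h i p : ℕ) : ℝ) := by
          push_cast
          linarith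
        exact_mod_cast h7
    have h3 := e3_dvd hS hz0 h2
    refine le_trans ?_ h3
    have h4 : ∀ p ∈ S, (R * m * ((∑ i, θ i p) / 3 - 3 * C0 * ε - 2 * C0 * ε) - 1) * Real.log p ≤
        (⌊R * m * ((∑ i, θ i p) / 3 - 3 * C0 * ε - 2 * C0 * ε)⌋₊ : ℝ) * Real.log p := by
      intro p _
      refine mul_le_mul_of_nonneg_right ?_ (hlogp p)
      linarith [Nat.lt_floor_add_one (R * m * ((∑ i, θ i p) / 3 - 3 * C0 * ε - 2 * C0 * ε))]
    refine le_trans (le_of_eq ?_) (Finset.sum_le_sum h4)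
    have h5 : ∀ p ∈ S, (R * m * ((∑ i, θ i p) / 3 - 3 * C0 * ε - 2 * C0 * ε) - 1) * Real.log p =
        R * m / 3 * (∑ i, θ i p * Real.log p) -
          (R * m * (3 * C0 * ε + 2 * C0 * ε) + 1) * Real.log p := by
      intro p _
      rw [← Finset.sum_mul]
      ring
    rw [Finset.sum_congr rfl h5, Finset.sum_sub_distrib, ← Finset.mul_sum, ← Finset.mul_sum,
      Finset.sum_comm, ← hlam]
    ring
  -- upper bound
  have hup : Real.log |(z : ℝ)| ≤ ((∑ h, r h : ℕ) : ℝ) * (Real.log K + Real.log b) +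
      m * R * ((∑ i, α i) / 3 + ε * (10 + 18 * C0)) + 2 * C0 * ε * R * m := by
    have h2 := ha m L Q u v c A (fun h => Real.exp (-(C0 * T h))) b κ (fun h i => (hA h i).1)
      (fun h => Real.exp_pos _) (fun h i => ?_) hbL hLu hLv
    swap
    · have h3 := (abs_le.1 (hA h i).2).1
      have h4 : -C0 ≤ Real.log (A h i) / T h := by linarith [hαC i, neg_abs_le (α i)]
      rw [le_div_iff₀ (hT0 h)] at h4
      rw [← Real.exp_log (hA h i).1]
      exact Real.exp_le_exp.2 (by linarith)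
    rw [hPQ, lsub_C_mul, coeff_C_mul, ← hz] at h2
    have hdet : (1 : ℝ) ≤ |((L.det ^ (∑ h, r h) : ℤ) : ℝ)| := by
      have : (1 : ℤ) ≤ |L.det ^ (∑ h, r h)| := Int.one_le_abs (pow_ne_zero _ hL)
      exact_mod_cast this
    have h3 : wlen (fun s => b * A s.1 s.2) Q ≤ K ^ (∑ h, r h) * (b ^ (∑ h, r h) *
        Real.exp (m * R * ((∑ i, α i) / 3 + ε * (10 + 18 * C0)))) := by
      have h4 : wlen (fun s => b * A s.1 s.2) Q ≤ len Q * (b ^ (∑ h, r h) *
          Real.exp (m * R * ((∑ i, α i) / 3 + ε * (10 + 18 * C0)))) := by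
        unfold len wlen
        rw [Finset.sum_mul]
        refine Finset.sum_le_sum fun j hj => ?_
        have h5 : (j.prod fun _ k => (1 : ℝ) ^ k) = 1 := by simp [Finsupp.prod]
        rw [h5, mul_one]
        exact mul_le_mul_of_nonneg_left (e3_up hR0 hε0 hε6 hT0 hr hRT (by linarith) hαC hA hQ hQb hj)
          (abs_nonneg _)
      exact h4.trans (mul_le_mul_of_nonneg_right hlen (by positivity))
    have h4 : Real.exp (-(2 * C0 * ε * R * m)) ≤ ∏ h, Real.exp (-(C0 * T h)) ^ κ (h, 2) := by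
      have h5 : ∀ h, Real.exp (-(C0 * T h)) ^ κ (h, 2) =
          Real.exp (-(C0 * ((κ (h, 2) : ℝ) * T h))) := by
        intro h
        rw [← Real.exp_nat_mul]
        congr 1
        ring
      rw [Finset.prod_congr rfl fun h _ => h5 h, ← Real.exp_sum]
      refine Real.exp_le_exp.2 ?_
      have h6 : ∀ h, C0 * ((κ (h, 2) : ℝ) * T h) ≤ 2 * C0 * R * ((κ (h, 2) : ℝ) / r h) := by
        intro h
        have h7 : T h ≤ 2 * R / r h := by
          rw [le_div_iff₀ (hrr h)]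
          nlinarith [(hRT h).2]
        calc C0 * ((κ (h, 2) : ℝ) * T h) ≤ C0 * ((κ (h, 2) : ℝ) * (2 * R / r h)) :=
              mul_le_mul_of_nonneg_left (mul_le_mul_of_nonneg_left h7 (Nat.cast_nonneg _))
                (by linarith)
          _ = _ := by ring
      have h7 : ∑ h, C0 * ((κ (h, 2) : ℝ) * T h) ≤ 2 * C0 * R * (ε * m) := by
        calc ∑ h, C0 * ((κ (h, 2) : ℝ) * T h) ≤ ∑ h, 2 * C0 * R * ((κ (h, 2) : ℝ) / r h) :=
              Finset.sum_le_sum fun h _ => h6 h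
          _ = 2 * C0 * R * ∑ h, (κ (h, 2) : ℝ) / r h := by rw [Finset.mul_sum]
          _ ≤ _ := mul_le_mul_of_nonneg_left hκ (by positivity)
      rw [Finset.sum_neg_distrib]
      linarith
    have hzabs : 0 < |(z : ℝ)| := abs_pos.2 (by exact_mod_cast hz0)
    have h5 : |(z : ℝ)| * Real.exp (-(2 * C0 * ε * R * m)) ≤ K ^ (∑ h, r h) * (b ^ (∑ h, r h) *
        Real.exp (m * R * ((∑ i, α i) / 3 + ε * (10 + 18 * C0)))) := by
      calc |(z : ℝ)| * Real.exp (-(2 * C0 * ε * R * m))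
          ≤ |((L.det ^ (∑ h, r h) * z : ℤ) : ℝ)| * ∏ h, Real.exp (-(C0 * T h)) ^ κ (h, 2) := by
            refine mul_le_mul ?_ h4 (Real.exp_pos _).le (abs_nonneg _)
            rw [Int.cast_mul, abs_mul]
            exact le_mul_of_one_le_left (abs_nonneg _) hdet
        _ ≤ _ := h2.trans h3
    have h6 := Real.log_le_log (mul_pos hzabs (Real.exp_pos _)) h5
    have hKp : (0 : ℝ) < K ^ (∑ h, r h) := pow_pos (by linarith) _
    have hbp : (0 : ℝ) < b ^ (∑ h, r h) := pow_pos (by linarith) _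
    rw [Real.log_mul hzabs.ne' (Real.exp_pos _).ne', Real.log_exp,
      Real.log_mul hKp.ne' (mul_pos hbp (Real.exp_pos _)).ne',
      Real.log_mul hbp.ne' (Real.exp_pos _).ne', Real.log_exp, Real.log_pow, Real.log_pow] at h6
    linarith
  -- the sum of the degrees
  have hrsum : ((∑ h, r h : ℕ) : ℝ) * t0 ≤ 2 * (m * R) := by
    push_cast
    rw [Finset.sum_mul]
    have h2 : ∀ h, (r h : ℝ) * t0 ≤ 2 * R := by
      intro h
      have h3 := mul_le_mul_of_nonneg_left (hT h) (hrr h).le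
      nlinarith [(hRT h).2]
    calc ∑ h, (r h : ℝ) * t0 ≤ ∑ _h : Fin m, 2 * R := Finset.sum_le_sum fun h _ => h2 h
      _ = 2 * (m * R) := by
        rw [Finset.sum_const, Finset.card_univ, Fintype.card_fin, nsmul_eq_mul]
        ring
  have hx : R * m * (δ / 3) ≤ ((∑ h, r h : ℕ) : ℝ) * (Real.log K + Real.log b) + lam +
      R * m * (ε * D) := by
    have h2 := hlow.trans hup
    rw [hδ, hD]
    nlinarith [h2]
  have hRm : t0 ≤ R * m := by nlinarith
  have hy : (((∑ h, r h : ℕ) : ℝ) * (Real.log K + Real.log b) + lam) * t0 ≤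
      R * m * (t0 * (δ / 9)) := by
    have h2 : ((∑ h, r h : ℕ) : ℝ) * t0 * (Real.log K + Real.log b) ≤
        2 * (m * R) * (Real.log K + Real.log b) :=
      mul_le_mul_of_nonneg_right hrsum (by linarith)
    have h3 : lam * t0 ≤ lam * (R * m) := mul_le_mul_of_nonneg_left hRm hlam0
    have h4 : R * m * (2 * (Real.log K + Real.log b) + lam) ≤ R * m * (t0 * (δ / 9)) :=
      mul_le_mul_of_nonneg_left ht0δ (by positivity)
    nlinarith [h2, h3, h4]
  have hy' : ((∑ h, r h : ℕ) : ℝ) * (Real.log K + Real.log b) + lam ≤ R * m * (δ / 9) := by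
    have ht00 : 0 < t0 := by linarith
    refine le_of_mul_le_mul_right ?_ ht00
    linarith
  have hw : R * m * (ε * D) ≤ R * m * (δ / 9) := mul_le_mul_of_nonneg_left hεD (by positivity)
  have hpos : 0 < R * m * δ := by positivity
  linarith

end MPcc0Sub
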