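import Pool.Agent.Lib.MP_cc0c1a_nt.Sub35.Spec

/-!
# MP_cc0c1a_nt, project Sub: P2, the auxiliary polynomial
-/

namespace MPcc0Sub

open MvPolynomial Filter Topology Matrix

namespace P2aux

variable {m : ℕ}

/-- Block weights. -/
def bw (m : ℕ) (s : Fin m × Fin 3) : Fin m → ℕ := Pi.single s.1 1

lemma weight_bw (j : (Fin m × Fin 3) →₀ ℕ) (h : Fin m) :
    Finsupp.weight (bw m) j h = j (h, 0) + j (h, 1) + j (h, 2) := by
  classical
  rw [Finsupp.weight_apply, Finsupp.sum_fintype _ _ (by simp), Fintype.sum_prod_type,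
    Finset.sum_apply]
  rw [Finset.sum_eq_single h]
  · simp [bw, Fin.sum_univ_three]
  · intro b _ hb
    simp [bw, Fin.sum_univ_three, Pi.single_eq_of_ne (Ne.symm hb)]
  · intro H
    exact absurd (Finset.mem_univ h) H

lemma mhom_iff (r : Fin m → ℕ) (P : MvPolynomial (Fin m × Fin 3) ℤ) :
    MHom r P ↔ IsWeightedHomogeneous (bw m) P r := by
  unfold MHom IsWeightedHomogeneous
  constructor
  · intro H d hd
    funext h
    rw [weight_bw]
    exact H d (mem_support_iff.mpr hd) h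
  · intro H j hj h
    rw [← weight_bw, H (mem_support_iff.mp hj)]

lemma bind_eq_sum {σ τ : Type} (f : σ → MvPolynomial τ ℤ) (P : MvPolynomial σ ℤ) :
    bind₁ f P = ∑ d ∈ P.support, C (coeff d P) * ∏ i ∈ d.support, f i ^ d i := by
  conv_lhs => rw [P.as_sum, map_sum]
  refine Finset.sum_congr rfl fun d _ => ?_
  rw [bind₁_monomial]

lemma lsub_mhom (r : Fin m → ℕ) (N : Fin m → Matrix (Fin 3) (Fin 3) ℤ)
    (P : MvPolynomial (Fin m × Fin 3) ℤ) (hP : MHom r P) : MHom r (lsub N P) := by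
  rw [mhom_iff] at hP ⊢
  unfold lsub
  rw [bind_eq_sum]
  refine IsWeightedHomogeneous.sum _ _ _ fun d hd => ?_
  refine IsWeightedHomogeneous.C_mul ?_ _
  have hd' : Finsupp.weight (bw m) d = r := hP (mem_support_iff.mp hd)
  rw [← hd', Finsupp.weight_apply]
  refine IsWeightedHomogeneous.prod _ _ _ fun s _ => ?_
  refine IsWeightedHomogeneous.pow ?_ _
  refine IsWeightedHomogeneous.sum _ _ _ fun i _ => ?_
  refine IsWeightedHomogeneous.C_mul ?_ _
  have := isWeightedHomogeneous_X ℤ (bw m) (s.1, i)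
  simpa [bw] using this

lemma sum_deg {r : Fin m → ℕ} {P : MvPolynomial (Fin m × Fin 3) ℤ} (hP : MHom r P)
    {j : (Fin m × Fin 3) →₀ ℕ} (hj : j ∈ P.support) : ∑ s, j s = ∑ h, r h := by
  rw [Fintype.sum_prod_type]
  refine Finset.sum_congr rfl fun h _ => ?_
  rw [Fin.sum_univ_three, hP j hj h]

lemma wlen_const {r : Fin m → ℕ} {P : MvPolynomial (Fin m × Fin 3) ℤ} (hP : MHom r P) (c : ℝ) :
    wlen (fun _ => c) P = c ^ (∑ h, r h) * len P := by
  unfold len wlen
  rw [Finset.mul_sum]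
  refine Finset.sum_congr rfl fun j hj => ?_
  have : j.prod (fun _ k => c ^ k) = c ^ (∑ h, r h) := by
    rw [Finsupp.prod_fintype _ _ (by simp), Finset.prod_pow_eq_pow_sum, sum_deg hP hj]
  rw [this]
  have h1 : j.prod (fun _ k => (1 : ℝ) ^ k) = 1 := by simp [Finsupp.prod]
  rw [h1]
  ring

lemma len_monomial_le (d : (Fin m × Fin 3) →₀ ℕ) (a : ℤ) :
    len (monomial d a) ≤ |(a : ℝ)| := by
  classical
  unfold len wlen
  rw [support_monomial]
  split_ifs with h
  · simp
  · simp [Finsupp.prod]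

lemma len_lsub (h1 : WLenFacts) (r : Fin m → ℕ) (N : Fin m → Matrix (Fin 3) (Fin 3) ℤ)
    (P : MvPolynomial (Fin m × Fin 3) ℤ) (hP : MHom r P) (c : ℝ) (hc : 0 ≤ c)
    (hN : ∀ h i, ∑ i', |((N h i i' : ℤ) : ℝ)| ≤ c) :
    len (lsub N P) ≤ c ^ (∑ h, r h) * len P := by
  rw [← wlen_const hP c]
  obtain ⟨_, hmul, hbind, _, _, _, hC, hX, hnn, _, hsum, _⟩ :=
    h1 (Fin m × Fin 3) (Fin m × Fin 3) (fun _ => 1) (fun _ => 1) (fun _ => 1)
      (fun _ => zero_le_one) (fun _ => le_rfl) (fun _ => zero_le_one)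
  have hf : ∀ s : Fin m × Fin 3,
      wlen (fun _ => (1 : ℝ)) (∑ i : Fin 3, C (N s.1 s.2 i) * X (s.1, i) :
        MvPolynomial (Fin m × Fin 3) ℤ) ≤ c := by
    intro s
    refine (hsum _ _ _).trans (le_trans ?_ (hN s.1 s.2))
    refine Finset.sum_le_sum fun i _ => ?_
    refine (hmul _ _).trans ?_
    rw [hC, hX, mul_one]
  have h2 := hbind P (fun s => ∑ i : Fin 3, C (N s.1 s.2 i) * X (s.1, i))
  refine le_trans h2 ?_
  obtain ⟨_, _, _, _, _, hmono, _⟩ :=
    h1 (Fin m × Fin 3) (Fin m × Fin 3)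
      (fun s => wlen (fun _ => (1 : ℝ)) (∑ i : Fin 3, C (N s.1 s.2 i) * X (s.1, i) :
        MvPolynomial (Fin m × Fin 3) ℤ)) (fun _ => c) (fun _ => 1)
      (fun s => hnn _) hf (fun _ => zero_le_one)
  exact hmono P

/-- `P(det X)`. -/
lemma bind_scale {r : Fin m → ℕ} {P : MvPolynomial (Fin m × Fin 3) ℤ} (hP : MHom r P) (a : ℤ) :
    bind₁ (fun s => C a * X s) P = C (a ^ (∑ h, r h)) * P := by
  rw [bind_eq_sum]
  conv_rhs => rw [P.as_sum, Finset.mul_sum]
  refine Finset.sum_congr rfl fun d hd => ?_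
  simp_rw [mul_pow]
  rw [Finset.prod_mul_distrib, Finset.prod_pow_eq_pow_sum]
  have h1 : ∑ i ∈ d.support, d i = ∑ h, r h := by
    rw [← sum_deg hP hd]
    refine Finset.sum_subset (Finset.subset_univ _) fun s _ hs => ?_
    simpa using hs
  rw [h1, monomial_eq, Finsupp.prod, C_pow]
  ring

lemma lsub_lsub_adj (L : Matrix (Fin 3) (Fin 3) ℤ) {r : Fin m → ℕ}
    {P : MvPolynomial (Fin m × Fin 3) ℤ} (hP : MHom r P) :
    lsub (fun _ => L) (lsub (fun _ => L.adjugate) P) = C (L.det ^ (∑ h, r h)) * P := by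
  rw [← bind_scale hP]
  unfold lsub
  rw [bind₁_bind₁]
  congr 2
  funext s
  rw [map_sum]
  simp only [map_mul, bind₁_C_right, bind₁_X_right]
  have key : ∀ i' : Fin 3, ∑ i : Fin 3, L.adjugate s.2 i * L i i' =
      if s.2 = i' then L.det else 0 := by
    intro i'
    have := congrFun (congrFun (L.adjugate_mul) s.2) i'
    rw [Matrix.mul_apply] at this
    rw [this]
    simp [Matrix.smul_apply, Matrix.one_apply]
  simp only [Finset.mul_sum]
  rw [Finset.sum_comm]
  have h3 : ∀ i' : Fin 3, ∑ i : Fin 3, (C (L.adjugate s.2 i) : MvPolynomial (Fin m × Fin 3) ℤ) *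
      (C (L i i') * X (s.1, i')) = C (if s.2 = i' then L.det else 0) * X (s.1, i') := by
    intro i'
    rw [← key i', map_sum, Finset.sum_mul]
    refine Finset.sum_congr rfl fun i _ => ?_
    rw [map_mul]
    ring
  rw [Finset.sum_congr rfl (fun i' _ => h3 i'), Finset.sum_eq_single s.2]
  · simp
  · intro b _ hb
    simp [Ne.symm hb]
  · intro H
    exact absurd (Finset.mem_univ _) H

/-- Exponents as finitely supported functions. -/
noncomputable def toF (j : Fin m → Fin 3 → ℕ) : (Fin m × Fin 3) →₀ ℕ :=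
  Finsupp.equivFunOnFinite.symm (fun s => j s.1 s.2)

lemma toF_apply (j : Fin m → Fin 3 → ℕ) (s : Fin m × Fin 3) : toF j s = j s.1 s.2 := rfl

lemma toF_inj {j j' : Fin m → Fin 3 → ℕ} (h : toF j = toF j') : j = j' := by
  funext a b
  have := DFunLike.congr_fun h (a, b)
  simpa [toF_apply] using this

lemma mem_exps {r : Fin m → ℕ} {j : Fin m → Fin 3 → ℕ} :
    j ∈ exps r ↔ ∀ h, j h 0 + j h 1 + j h 2 = r h := by
  unfold exps
  rw [Fintype.mem_piFinset]
  refine forall_congr' fun h => ?_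
  rw [Finset.Nat.mem_antidiagonalTuple, Fin.sum_univ_three]

lemma card_exps_le (r : Fin m → ℕ) : (exps r).card ≤ 8 ^ (∑ h, r h) := by
  unfold exps
  rw [Fintype.card_piFinset, ← Finset.prod_pow_eq_pow_sum]
  refine Finset.prod_le_prod (fun _ _ => Nat.zero_le _) fun h _ => ?_
  have hsub : Finset.Nat.antidiagonalTuple 3 (r h) ⊆
      Fintype.piFinset (fun _ : Fin 3 => Finset.range (r h + 1)) := by
    intro x hx
    rw [Finset.Nat.mem_antidiagonalTuple] at hx
    rw [Fintype.mem_piFinset]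
    intro i
    rw [Finset.mem_range]
    have : x i ≤ ∑ i, x i := Finset.single_le_sum (fun _ _ => Nat.zero_le _) (Finset.mem_univ i)
    omega
  refine (Finset.card_le_card hsub).trans ?_
  rw [Fintype.card_piFinset]
  simp only [Finset.card_range, Finset.prod_const, Finset.card_univ, Fintype.card_fin]
  have h2 : r h + 1 ≤ 2 ^ r h := Nat.lt_two_pow_self
  calc (r h + 1) ^ 3 ≤ (2 ^ r h) ^ 3 := Nat.pow_le_pow_left h2 3
    _ = 8 ^ r h := by rw [← pow_mul, mul_comm, pow_mul]; norm_num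

lemma exps_nonempty (r : Fin m → ℕ) : (exps r).Nonempty :=
  ⟨fun h => ![r h, 0, 0], mem_exps.mpr fun h => by simp⟩

/-- The polynomial with given coefficients. -/
noncomputable def Pt (B : Finset (Fin m → Fin 3 → ℕ)) (t : B → ℤ) :
    MvPolynomial (Fin m × Fin 3) ℤ :=
  ∑ j : B, monomial (toF j.1) (t j)

lemma coeff_Pt (B : Finset (Fin m → Fin 3 → ℕ)) (t : B → ℤ) (j : B) :
    coeff (toF j.1) (Pt B t) = t j := by
  classical
  unfold Pt
  rw [coeff_sum, Finset.sum_eq_single j]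
  · rw [coeff_monomial, if_pos rfl]
  · intro b _ hb
    rw [coeff_monomial, if_neg]
    intro H
    exact hb (Subtype.ext (toF_inj H))
  · intro H
    exact absurd (Finset.mem_univ _) H

lemma supp_Pt (B : Finset (Fin m → Fin 3 → ℕ)) (t : B → ℤ) (d : (Fin m × Fin 3) →₀ ℕ)
    (hd : d ∈ (Pt B t).support) : ∃ j ∈ B, d = toF j := by
  classical
  rw [mem_support_iff] at hd
  by_contra H
  push Not at H
  apply hd
  unfold Pt
  rw [coeff_sum]
  refine Finset.sum_eq_zero fun j _ => ?_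
  rw [coeff_monomial, if_neg]
  intro h
  exact H j.1 j.2 h.symm

lemma len_Pt (h1 : WLenFacts) (B : Finset (Fin m → Fin 3 → ℕ)) (t : B → ℤ) (b : ℝ)
    (hb : ∀ j, |((t j : ℤ) : ℝ)| ≤ b) : len (Pt B t) ≤ B.card * b := by
  obtain ⟨_, _, _, _, _, _, _, _, _, _, hsum, _⟩ :=
    h1 (Fin m × Fin 3) (Fin m × Fin 3) (fun _ => 1) (fun _ => 1) (fun _ => 1)
      (fun _ => zero_le_one) (fun _ => le_rfl) (fun _ => zero_le_one)
  have h2 : len (Pt B t) ≤ ∑ j : B, len (monomial (toF j.1) (t j)) := hsum _ _ _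
  refine h2.trans ?_
  calc ∑ j : B, len (monomial (toF j.1) (t j)) ≤ ∑ _j : B, b :=
        Finset.sum_le_sum fun j _ => (len_monomial_le _ _).trans (hb j)
    _ = B.card * b := by simp

attribute [local instance] Matrix.seminormedAddCommGroup in
/-- Siegel's lemma in the form needed. -/
lemma siegel {α β : Type} [Fintype α] [Fintype β] [DecidableEq α] [DecidableEq β]
    (A : Matrix α β ℤ) (c : ℝ) (hc : 1 ≤ c) (hA : ∀ i j, |((A i j : ℤ) : ℝ)| ≤ c)
    (hcard : 7 * Fintype.card α ≤ Fintype.card β) (hβ : 0 < Fintype.card β) :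
    ∃ t : β → ℤ, t ≠ 0 ∧ A *ᵥ t = 0 ∧ ∀ j, |((t j : ℤ) : ℝ)| ≤ Fintype.card β * c := by
  have hβ' : (1 : ℝ) ≤ Fintype.card β := by exact_mod_cast hβ
  rcases Nat.eq_zero_or_pos (Fintype.card α) with h0 | h0
  · have : IsEmpty α := Fintype.card_eq_zero_iff.mp h0
    refine ⟨fun _ => 1, ?_, ?_, ?_⟩
    · intro H
      obtain ⟨b⟩ := Fintype.card_pos_iff.mp hβ
      have := congrFun H b
      simp at this
    · funext a
      exact (this.false a).elim
    · intro j
      simp only [Int.cast_one, abs_one]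
      nlinarith
  · have hn : Fintype.card α < Fintype.card β := by omega
    obtain ⟨t, ht, hAt, hnorm⟩ := Int.Matrix.exists_ne_zero_int_vec_norm_le A hn h0
    refine ⟨t, ht, hAt, fun j => ?_⟩
    have hnA : ‖A‖ ≤ c := by
      rw [Matrix.norm_le_iff (by linarith)]
      intro i j
      rw [Int.norm_eq_abs]
      exact hA i j
    have h1 : |((t j : ℤ) : ℝ)| ≤ ‖t‖ := by
      rw [← Int.norm_eq_abs]
      exact norm_le_pi_norm t j
    refine h1.trans (hnorm.trans ?_)
    have hmax : (1 : ℝ) ≤ max 1 ‖A‖ := le_max_left _ _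
    have hmax2 : max 1 ‖A‖ ≤ c := max_le hc hnA
    have hbase : (1 : ℝ) ≤ Fintype.card β * max 1 ‖A‖ := by nlinarith
    have hcast : 7 * (Fintype.card α : ℝ) ≤ Fintype.card β := by exact_mod_cast hcard
    have hpos : (0 : ℝ) < Fintype.card α := by exact_mod_cast h0
    have hexp : (Fintype.card α : ℝ) / ((Fintype.card β : ℝ) - Fintype.card α) ≤ 1 := by
      rw [div_le_one (by linarith)]
      linarith
    calc ((Fintype.card β : ℝ) * max 1 ‖A‖) ^
          ((Fintype.card α : ℝ) / ((Fintype.card β : ℝ) - Fintype.card α))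
        ≤ ((Fintype.card β : ℝ) * max 1 ‖A‖) ^ (1 : ℝ) :=
          Real.rpow_le_rpow_of_exponent_le hbase hexp
      _ = (Fintype.card β : ℝ) * max 1 ‖A‖ := Real.rpow_one _
      _ ≤ Fintype.card β * c := by
          apply mul_le_mul_of_nonneg_left hmax2; linarith

end P2aux

open P2aux in
/-- **P2, auxiliary polynomial.** -/
theorem auxPoly (h1 : WLenFacts) (hc : CountBal) : AuxPoly := by
  classical
  intro L _
  set adj := L.adjugate with hadj
  set c : ℝ := 1 + ∑ i, ∑ i', |((adj i i' : ℤ) : ℝ)| with hcdef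
  have hrow : ∀ i, ∑ i', |((adj i i' : ℤ) : ℝ)| ≤ c := by
    intro i
    have : ∑ i', |((adj i i' : ℤ) : ℝ)| ≤ ∑ i, ∑ i', |((adj i i' : ℤ) : ℝ)| :=
      Finset.single_le_sum (f := fun i => ∑ i', |((adj i i' : ℤ) : ℝ)|)
        (fun i _ => Finset.sum_nonneg fun _ _ => abs_nonneg _) (Finset.mem_univ i)
    linarith
  have hc1 : 1 ≤ c := by
    have : 0 ≤ ∑ i, ∑ i', |((adj i i' : ℤ) : ℝ)| :=
      Finset.sum_nonneg fun i _ => Finset.sum_nonneg fun _ _ => abs_nonneg _
    linarith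
  refine ⟨64 * c ^ 2, by nlinarith, fun ε hε => ?_⟩
  obtain ⟨m0, hm0⟩ := hc ε hε
  refine ⟨m0, fun m hm r hr => ?_⟩
  have hcount := hm0 m hm r hr
  set U := (exps r).filter
      (fun j => ∃ i : Fin 3, ∑ h, (j h i : ℝ) / r h < (1 / 3 - ε) * m) with hU
  set B := (exps r).filter
      (fun j => ¬ ∃ i : Fin 3, ∑ h, (j h i : ℝ) / r h < (1 / 3 - ε) * m) with hB
  have hUB : U.card + B.card = (exps r).card := Finset.card_filter_add_card_filter_not _
  have hEpos : 0 < (exps r).card := Finset.card_pos.mpr (exps_nonempty r)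
  have h7 : 7 * U.card ≤ B.card := by omega
  have hBpos : 0 < B.card := by omega
  set s := ∑ h, r h with hs
  have hcs : 1 ≤ c ^ s := one_le_pow₀ hc1
  have hmonoM : ∀ j ∈ exps r, ∀ a : ℤ, MHom r (monomial (toF j) a) := by
    intro j hj a d hd h
    have hd' := support_monomial_subset hd
    rw [Finset.mem_singleton] at hd'
    subst hd'
    simp only [toF_apply]
    exact mem_exps.mp hj h
  -- the matrix
  let A : Matrix U B ℤ := Matrix.of fun u j =>
    coeff (toF u.1) (lsub (fun _ => adj) (monomial (toF j.1) 1))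
  have hA : ∀ i j, |((A i j : ℤ) : ℝ)| ≤ c ^ s := by
    intro u j
    have hj : j.1 ∈ exps r := (Finset.mem_filter.mp j.2).1
    obtain ⟨_, _, _, hcoef, _⟩ :=
      h1 (Fin m × Fin 3) (Fin m × Fin 3) (fun _ => 1) (fun _ => 1) (fun _ => 1)
        (fun _ => zero_le_one) (fun _ => le_rfl) (fun _ => zero_le_one)
    have h2 := hcoef (lsub (fun _ => adj) (monomial (toF j.1) 1)) (toF u.1)
    have h3 : (toF u.1).prod (fun _ k => (1 : ℝ) ^ k) = 1 := by simp [Finsupp.prod]
    rw [h3, mul_one] at h2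
    refine h2.trans ?_
    refine (len_lsub h1 r (fun _ => adj) _ (hmonoM j.1 hj 1) c (by linarith)
      (fun _ i => hrow i)).trans ?_
    have h4 := len_monomial_le (toF j.1) 1
    simp only [Int.cast_one, abs_one] at h4
    calc c ^ s * len (monomial (toF j.1) 1) ≤ c ^ s * 1 := by
          apply mul_le_mul_of_nonneg_left h4; linarith
      _ = c ^ s := mul_one _
  obtain ⟨t, ht0, hAt, htb⟩ := siegel A (c ^ s) hcs hA
    (by rw [Fintype.card_coe, Fintype.card_coe]; exact h7)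
    (by rw [Fintype.card_coe]; exact hBpos)
  rw [Fintype.card_coe] at htb
  set P := Pt B t with hP
  have hPM : MHom r P := by
    intro d hd h
    obtain ⟨j, hj, rfl⟩ := supp_Pt B t d hd
    simp only [toF_apply]
    exact mem_exps.mp (Finset.mem_filter.mp hj).1 h
  set Q := lsub (fun _ => adj) P with hQ
  have hQM : MHom r Q := lsub_mhom r _ P hPM
  have hcard : (B.card : ℝ) ≤ 8 ^ s := by
    have h2 : B.card ≤ (exps r).card := Finset.card_filter_le _ _
    have h3 := h2.trans (card_exps_le r)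
    exact_mod_cast h3
  have hlenP : len P ≤ 64 ^ s * c ^ s := by
    refine (len_Pt h1 B t _ htb).trans ?_
    have h64 : (64 : ℝ) ^ s = 8 ^ s * 8 ^ s := by
      rw [← mul_pow]; norm_num
    rw [h64]
    have hb0 : (0 : ℝ) ≤ B.card := by positivity
    calc (B.card : ℝ) * (B.card * c ^ s) = (B.card * B.card) * c ^ s := by ring
      _ ≤ (8 ^ s * 8 ^ s) * c ^ s := by
          apply mul_le_mul_of_nonneg_right _ (by linarith)
          exact mul_le_mul hcard hcard hb0 (by positivity)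
  have hlenQ : len Q ≤ c ^ s * len P :=
    len_lsub h1 r (fun _ => adj) P hPM c (by linarith) (fun _ i => hrow i)
  have hK : (64 * c ^ 2) ^ s = 64 ^ s * (c ^ s * c ^ s) := by
    rw [mul_pow, ← pow_mul, ← pow_add]
    congr 2
    ring
  have h64pos : (0 : ℝ) < 64 ^ s := by positivity
  refine ⟨P, Q, ?_, hPM, hQM, ?_, ?_, ?_, ?_, ?_⟩
  · -- P ≠ 0
    intro H
    apply ht0
    funext j
    have h2 := coeff_Pt B t j
    rw [← hP, H] at h2
    simpa using h2.symm
  · -- Bal P
    intro d hd i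
    obtain ⟨j, hj, rfl⟩ := supp_Pt B t d hd
    have h2 := (Finset.mem_filter.mp hj).2
    push Not at h2
    simpa only [toF_apply] using h2 i
  · -- Bal Q
    intro d hd i
    by_contra H
    push Not at H
    let u : Fin m → Fin 3 → ℕ := fun h i => d (h, i)
    have hdu : d = toF u := by
      ext x
      rw [toF_apply]
    have huU : u ∈ U := by
      rw [hU, Finset.mem_filter]
      exact ⟨mem_exps.mpr fun h => hQM d hd h, i, H⟩
    rw [mem_support_iff] at hd
    apply hd
    have h2 := congrFun hAt ⟨u, huU⟩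
    rw [Pi.zero_apply] at h2
    rw [← h2, hdu, hQ, hP]
    unfold Pt
    unfold lsub
    rw [map_sum, coeff_sum]
    change _ = ∑ j, A ⟨u, huU⟩ j * t j
    refine Finset.sum_congr rfl fun j _ => ?_
    have h3 : (monomial (toF j.1) (t j) : MvPolynomial (Fin m × Fin 3) ℤ) =
        C (t j) * monomial (toF j.1) 1 := by
      rw [C_mul_monomial, mul_one]
    rw [h3, map_mul, bind₁_C_right, coeff_C_mul, mul_comm]
    rfl
  · -- len P
    rw [hK]
    refine hlenP.trans ?_
    apply mul_le_mul_of_nonneg_left _ h64pos.le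
    nlinarith
  · -- len Q
    rw [hK]
    refine hlenQ.trans ?_
    calc c ^ s * len P ≤ c ^ s * (64 ^ s * c ^ s) := by
          apply mul_le_mul_of_nonneg_left hlenP; linarith
      _ = 64 ^ s * (c ^ s * c ^ s) := by ring
  · exact lsub_lsub_adj L hPM

end MPcc0Sub
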