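import Pool.Agent.Lib.MP_cc0c1a_nt.Sub35.Defs

/-!
# MP_cc0c1a_nt, project Sub: statements

Group R: Roth's lemma (upper bound of the index) at rational points.
Group P: auxiliary polynomial.  Group E: the polynomial vanishes on the planes.
Group N: specialization to one variable per block.  Group A: planes.  Group B: points.
Group D: the application to powers of `3/2`.
-/

namespace MPcc0Sub

open MvPolynomial Filter Topology Matrix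

/-! ## Group R -/

/-- **R1, lengths.**

Proof.  All by comparing coefficients; `wlen w P = ∑ |P_j| w^j` is the value at `w` of the
polynomial with the absolute values of the coefficients.  (b): the coefficient of `P Q` at `j` is
the sum of `P_a Q_b` over `a + b = j`, triangle inequality.  (c): `bind₁ f P = ∑_j C(P_j) ∏ f_s^(j_s)`
and (a), (b).  (e): a nonzero integer has absolute value at least `1`. -/
def WLenFacts : Prop :=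
  ∀ (σ τ : Type) (w w' : σ → ℝ) (v : τ → ℝ), (∀ s, 0 ≤ w s) → (∀ s, w s ≤ w' s) → (∀ s, 0 ≤ v s) →
    ((∀ P Q : MvPolynomial σ ℤ, wlen w (P + Q) ≤ wlen w P + wlen w Q) ∧
    (∀ P Q : MvPolynomial σ ℤ, wlen w (P * Q) ≤ wlen w P * wlen w Q) ∧
    (∀ (P : MvPolynomial τ ℤ) (f : τ → MvPolynomial σ ℤ),
      wlen w (bind₁ f P) ≤ wlen (fun s => wlen w (f s)) P) ∧
    (∀ (P : MvPolynomial σ ℤ) (j : σ →₀ ℕ),
      |((coeff j P : ℤ) : ℝ)| * j.prod (fun s k => w s ^ k) ≤ wlen w P) ∧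
    (∀ P : MvPolynomial σ ℤ, P ≠ 0 → 1 ≤ len P) ∧
    (∀ P : MvPolynomial σ ℤ, wlen w P ≤ wlen w' P) ∧
    (∀ a : ℤ, wlen w (C a) = |(a : ℝ)|) ∧ (∀ s, wlen w (X s) = w s) ∧
    (∀ P : MvPolynomial σ ℤ, 0 ≤ wlen w P) ∧
    (∀ (P : MvPolynomial σ ℤ) (n : ℕ), wlen w (P ^ n) ≤ wlen w P ^ n) ∧
    (∀ (ι : Type) (t : Finset ι) (f : ι → MvPolynomial σ ℤ),
      wlen w (∑ i ∈ t, f i) ≤ ∑ i ∈ t, wlen w (f i)) ∧
    (∀ (ι : Type) (t : Finset ι) (f : ι → MvPolynomial σ ℤ),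
      wlen w (∏ i ∈ t, f i) ≤ ∏ i ∈ t, wlen w (f i)))

/-- **R2, divided derivatives and index.**

Proof.  (1) is the definition (the map `j ↦ j - I` is injective on `j ≥ I`, and for the other `j`
some binomial coefficient is `0`); everything else follows from (1).  (4) `dd I` is linear and
commutes with shifts: on monomials, or from (9).  (5): a monomial `j` of `dd I P` comes from the
monomial `j + I` of `P`.  (6), (7): a monomial of `P Q` is the sum of monomials of `P` and `Q`.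
(8): the product of the binomial coefficients is at most `2^(sum of j)`.  (9) Taylor: binomial
theorem for each monomial. -/
def DDFacts : Prop :=
  ∀ (σ R : Type) [Fintype σ] [CommRing R],
    ((∀ (I j : σ →₀ ℕ) (P : MvPolynomial σ R),
      coeff j (dd I P) = coeff (j + I) P * ((I.prod fun s i => (j s + i).choose i : ℕ) : R)) ∧
    (∀ (I : σ →₀ ℕ) (P Q : MvPolynomial σ R), dd I (P + Q) = dd I P + dd I Q) ∧
    (∀ (I : σ →₀ ℕ) (a : R) (P : MvPolynomial σ R), dd I (C a * P) = C a * dd I P) ∧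
    (∀ (I : σ →₀ ℕ) (β : σ → R) (P : MvPolynomial σ R), shift β (dd I P) = dd I (shift β P)) ∧
    (∀ (I : σ →₀ ℕ) (r : σ → ℕ) (τ : ℝ) (P : MvPolynomial σ R), IdxGe r τ P →
      IdxGe r (τ - I.sum fun s k => (k : ℝ) / r s) (dd I P)) ∧
    (∀ (r : σ → ℕ) (τ τ' : ℝ) (P Q : MvPolynomial σ R), IdxGe r τ P → IdxGe r τ' Q →
      IdxGe r (τ + τ') (P * Q)) ∧
    (∀ (r : σ → ℕ) (τ : ℝ) (P Q : MvPolynomial σ R), IdxGe r τ P → IdxGe r τ Q →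
      IdxGe r τ (P + Q)) ∧
    (∀ (I : σ →₀ ℕ) (P : MvPolynomial σ ℤ) (r : σ → ℕ), (∀ s, P.degreeOf s ≤ r s) →
      len (dd I P) ≤ 2 ^ (∑ s, r s) * len P ∧ ∀ s, (dd I P).degreeOf s ≤ r s) ∧
    (∀ (A : Type) [CommRing A] [Algebra R A] (x y : σ → A) (P : MvPolynomial σ R)
      (U : Finset (σ →₀ ℕ)), (∀ j ∈ P.support, ∀ I, I ≤ j → I ∈ U) →
      aeval (fun s => x s + y s) P = ∑ I ∈ U, aeval x (dd I P) * I.prod (fun s i => y s ^ i)) ∧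
    (∀ (I : σ →₀ ℕ) (P : MvPolynomial σ ℤ), toQ (dd I P) = dd I (toQ P)) ∧
    (∀ (β : σ → R) (P : MvPolynomial σ R), shift β P = 0 ↔ P = 0))

/-- **R3, Wronskian in one variable.**

Proof.  The nonvanishing of the determinant does not change if `g` is replaced by another basis of
the same space `V` (multiplication by an invertible constant matrix).  `V` has a basis with pairwise
different degrees `d_0 < … < d_k` (Gauss elimination, induction on `k`: take an element of maximal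
degree and subtract multiples of it from the others).  Then the coefficient of
`X^(∑ d_j - ∑ t)` in the determinant is `∏ lc(g_j) · det (d_j choose t)`, and
`det (d_j choose t)_{t,j} = ∏_{i<j} (d_j - d_i) / ∏ t! ≠ 0` (Vandermonde; see
`Mathlib/NumberTheory/SuperFactorial.lean` or `Mathlib/LinearAlgebra/Vandermonde.lean`,
`Matrix.det_eval_matrixOfPolynomials_eq_det_vandermonde`). -/
def OneWronskian : Prop :=
  ∀ (k : ℕ) (g : Fin (k + 1) → Polynomial ℚ), LinearIndependent ℚ g →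
    Matrix.det (Matrix.of fun t j : Fin (k + 1) => Polynomial.hasseDeriv (t : ℕ) (g j)) ≠ 0

/-- **R4, generalised Wronskian.**

Proof (from R2, R3).  Let `N` be larger than all exponents in the `f_j`, `D_i = N^i`, and
`g_j(t) = f_j(t^(D_0), …, t^(D_(m-1))) ∈ ℚ[t]`.  Different monomials of the `f_j` go to different
powers of `t` (digits in base `N`), so the `g_j` are linearly independent and
`det (hasseDeriv s g_j) ≠ 0` by R3.  By Taylor (R2) with `x_i = t^(D_i)`, `y_i = (t+z)^(D_i) - t^(D_i)`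
(in `ℚ[t][z]`): `g_j(t + z) = ∑_I (dd I f_j)(x) · y^I`, and `y^I` is divisible by `z^|I|`; so
`hasseDeriv s g_j = ∑_{|I| ≤ s} c_{s,I}(t) · (dd I f_j)(x)`, `c_{s,I}` = coefficient of `z^s` in
`y^I`, which does not depend on `j`.  The determinant is multilinear in the rows, so
`det (dd (I_s) f_j)(x) ≠ 0` for some choice with `|I_s| ≤ s`. -/
def GenWronskian : Prop :=
  ∀ (m k : ℕ) (f : Fin (k + 1) → MvPolynomial (Fin m) ℚ), LinearIndependent ℚ f →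
    ∃ I : Fin (k + 1) → (Fin m →₀ ℕ), (∀ s, (I s).degree ≤ s) ∧
      Matrix.det (Matrix.of fun s j : Fin (k + 1) => dd (I s) (f j)) ≠ 0

/-- **R5, one rational point.**

Proof.  Let `i` be the multiplicity of the root `p/q` of `G` (over `ℚ`); the coefficient of
`(X)^i` in `G(X + p/q)` is not `0`.  `(X - p/q)^i ∣ G` over `ℚ`, so `(q X - p)^i ∣ G` over `ℚ`, and
over `ℤ` by Gauss's lemma (`q X - p` is primitive;
`Polynomial.IsPrimitive.Int.dvd_iff_map_cast_dvd_map_cast`).  Hence `q^i` divides the leading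
coefficient and, if `p ≠ 0`, `p^i` divides the lowest nonzero coefficient (`trailingCoeff`) of `G`;
so `|q|^i ≤ plen G`, `|p|^i ≤ plen G`.  If `p = 0` then `|q| = 1`. -/
def OneRoth : Prop :=
  ∀ (G : Polynomial ℤ) (p q : ℤ), G ≠ 0 → q ≠ 0 → IsCoprime p q →
    ∃ j ∈ ((G.map (Int.castRingHom ℚ)).comp
        (Polynomial.X + Polynomial.C ((p : ℚ) / (q : ℚ)))).support,
      (j : ℝ) * Real.log (max |(p : ℝ)| |(q : ℝ)|) ≤ Real.log (plen G)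

/-- **R6, splitting the mixed Wronskian.**

Proof (from R2, R3, R4).  Write `P = ∑_{t ≤ d} c_t(x') x_0^t` over `ℚ` (`finSuccEquiv`).  The span of
the `c_t` has dimension `k + 1`, `0 ≤ k ≤ d`; choose a basis `f_0, …, f_k` among the `c_t`:
`f_i = c_(t_i)`, `c_t = ∑_i λ_it f_i`.  So `P = ∑_i f_i(x') g_i(x_0)`, `g_i = ∑_t λ_it x_0^t`, and the
`g_i` are linearly independent (the coefficient of `x_0^(t_j)` in `g_i` is `1` for `i = j` and `0`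
otherwise).  `dd (cons t I) P = ∑_i (dd I f_i)(x') · (hasseDeriv t g_i)(x_0)`, so
`det (wmat I P) = det (dd (I_s) f_i) · det (hasseDeriv t g_i)`, a product of a polynomial
`F_1(x') ≠ 0` (choose `I` by R4) and `G_1(x_0) ≠ 0` (R3).  Choose `t_0` with
`coeff t_0 G_1 = γ ≠ 0`; `F :=` coefficient of `x_0^(t_0)` in `W = det (wmat I P)`: an integer
polynomial equal to `γ F_1`.  Choose `i_0` with `coeff i_0 F_1 = γ' ≠ 0`; `G := ∑_t coeff (cons t i_0) W x^t`,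
an integer polynomial equal to `γ' G_1`.  Their coefficients are coefficients of `W`, so the
lengths are at most `len W` and the degree claim holds.  Finally
`shift β W = (shift F_1)(x') (shift G_1)(x_0)`, with coefficient at `cons j i` the product of the
coefficients at `i` and `j`. -/
def SplitInt : Prop :=
  ∀ (m d : ℕ) (P : MvPolynomial (Fin (m + 1)) ℤ), P ≠ 0 → P.degreeOf 0 ≤ d →
    ∃ (k : ℕ) (I : Fin (k + 1) → (Fin m →₀ ℕ)) (F : MvPolynomial (Fin m) ℤ) (G : Polynomial ℤ),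
      k ≤ d ∧ (∀ s, (I s).degree ≤ s) ∧ F ≠ 0 ∧ G ≠ 0 ∧ (wmat I P).det ≠ 0 ∧
      len F ≤ len (wmat I P).det ∧ plen G ≤ len (wmat I P).det ∧
      (∀ h : Fin m, F.degreeOf h ≤ (wmat I P).det.degreeOf h.succ) ∧
      ∀ β : Fin (m + 1) → ℚ, ∀ i ∈ (shift (fun h : Fin m => β h.succ) (toQ F)).support,
        ∀ j ∈ ((G.map (Int.castRingHom ℚ)).comp (Polynomial.X + Polynomial.C (β 0))).support,
          Finsupp.cons j i ∈ (shift β (toQ (wmat I P).det)).support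

/-- **R7, the determinant: length, degrees and index.**

Proof.  `det = ∑_π sign ∏ entries`.  (1) length of a product and a sum (R1), `(k+1)!` permutations.
(2) degrees add up.  (3) the entry `(s, t)` is `dd (cons t (I s)) P`; by R2 its index (after the
shift, which commutes with `dd`) is at least
`τ - t / r_0 - ∑_h (I s)_h / r_(h+1) ≥ τ - t / r_0 - ω`, because `1 / r_(h+1) ≤ ω / r_0` and
`|I s| ≤ s ≤ k ≤ r_0`; it is also `≥ 0`.  Products and sums by R2. -/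
def DetFacts : Prop :=
  ∀ (m k : ℕ) (I : Fin (k + 1) → (Fin m →₀ ℕ)) (P : MvPolynomial (Fin (m + 1)) ℤ)
    (r : Fin (m + 1) → ℕ), (∀ h, 0 < r h) → (∀ h, P.degreeOf h ≤ r h) → k ≤ r 0 →
    (∀ s, (I s).degree ≤ s) →
    len (wmat I P).det ≤ (k + 1).factorial * (2 ^ (∑ h, r h) * len P) ^ (k + 1) ∧
    (∀ h, (wmat I P).det.degreeOf h ≤ (k + 1) * r h) ∧
    ∀ (β : Fin (m + 1) → ℚ) (τ ω : ℝ), 0 ≤ ω → (∀ h : Fin m, (r 0 : ℝ) ≤ ω * r h.succ) →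
      IdxGe r τ (shift β (toQ P)) →
      IdxGe r (∑ t : Fin (k + 1), max 0 (τ - ω - (t : ℝ) / r 0)) (shift β (toQ (wmat I P).det))

/-- **R8, an average.**

Proof.  The terms decrease in `t`, so their average over `t ≤ k` is at least their average over
`t ≤ d`.  At least `⌊τ d / 2⌋ + 1 ≥ τ d / 2` of the terms with `t ≤ d` are at least `τ / 2`; the sum
over `t ≤ d` is at least `τ² d / 4 ≥ τ² (d + 1) / 8`. -/
def AvgIneq : Prop :=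
  ∀ (τ : ℝ) (k d : ℕ), 0 ≤ τ → τ ≤ 1 → 1 ≤ d → k ≤ d →
    ((k : ℝ) + 1) * (τ ^ 2 / 8) ≤ ∑ t : Fin (k + 1), max 0 (τ - (t : ℝ) / d)

/-- **R9, Roth's lemma** for all `m`.

Proof (from R5-R8, R1).  Induction on `m`; `m = 0`: `P` is a nonzero constant, `j = 0` is in the
support and has weight `0 < τ`.  Step: let `τ ≤ 1` (else use `τ = 1`).  Let `ω', K'` belong to `m` and
`τ' = τ²/128`; `ω = min ω' (τ/2)`, `K = (m+3) (K' + 128/τ²)`.  Suppose `IdxGe r τ (shift β P)`.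
Take `k, I, F, G` from R6 (`d = r 0`), `W = det`.  R7, R8 with `τ₁ = τ - ω ≥ τ/2`:
`IdxGe r ((k+1) τ₁²/8) (shift β W)`.  R7(1): `log (len W) ≤ (k+1) (m+3) B =: B'`, since
`(k+1)! ≤ (k+1)^(k+1)`, `log (k+1) ≤ k ≤ r 0 ≤ B`, `(∑ r_h) log 2 + log (len P) ≤ (m+2) B`.
Apply Roth's lemma for `m` to `F` with the degrees `r'_h = (k+1) r_(h+1)`, `B'`, `τ'` (the height
condition: `K' B' ≤ (k+1) r_(h+1) log H` holds as `K ≥ K' (m+3)`): there is `i` in the support of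
`shift F` with `∑ i_h / r_(h+1) < (k+1) τ'`.  R5 for `G`: there is `j` in the support of
`G(X + β_0)` with `j log H_0 ≤ log (plen G) ≤ B'`, so (as `K B ≤ r_0 log H_0`)
`j / r_0 ≤ (k+1)(m+3)/K ≤ (k+1) τ²/128`.  By R6 `cons j i` is in the support of `shift β W` and has
weight `< (k+1) τ²/64 ≤ (k+1) τ₁²/8`, a contradiction. -/
def RothAll : Prop := ∀ m, RothLemma m

/-! ## Group P -/

/-- **P1, counting unbalanced exponents.**

Proof (Chebyshev).  For fixed `h` let `N_h` be the number of `(a,b,c)` with `a+b+c = r_h`; by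
symmetry the average of `a / r_h - 1/3` is `0`, and its absolute value is at most `1`.  So the average
over `exps r` of `(∑_h (j_(h,i) / r_h - 1/3))²` is at most `m` (the cross terms vanish because
`exps r` is a product), and the proportion of `j` with `∑_h j_(h,i)/r_h < (1/3 - ε) m` is at most
`m / (ε m)² = 1/(ε² m)`; for the three `i` together at most `3/(ε² m) ≤ 1/8` if `m ≥ 24/ε²`. -/
def CountBal : Prop :=
  ∀ ε : ℝ, 0 < ε → ∃ m0 : ℕ, ∀ m : ℕ, m0 ≤ m → ∀ r : Fin m → ℕ, (∀ h, 0 < r h) →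
    8 * ((exps r).filter
      (fun j => ∃ i : Fin 3, ∑ h, (j h i : ℝ) / r h < (1 / 3 - ε) * m)).card ≤ (exps r).card

/-- **P2, auxiliary polynomial.**

Proof (from P1, R1).  `adj` = adjugate of `L`, `s = ∑ r_h`.  Unknowns: the coefficients of `P` at the
balanced exponents, `n ≥ (7/8) #(exps r)` unknowns.  `Q := lsub adj P` is multihomogeneous;
equations: the coefficients of `Q` at the unbalanced exponents vanish, at most `(1/8) #(exps r)`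
equations, with integer coefficients of absolute value at most `c^s` (`c` = maximal row sum of
`|adj|`; `wlen` of the product of the linear forms).  Siegel's lemma
(`Int.Matrix.exists_ne_zero_int_vec_norm_le'`; if there are no equations or the matrix is zero take
any unit vector): a solution `≠ 0` with entries at most `n · max(1, c^s)` (the exponent
`m/(n - m)` is `≤ 1`), `n ≤ #(exps r) ≤ 4^s` (`C(r+2,2) ≤ 4^r` for `r ≥ 1`).  So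
`len P ≤ n · n c^s ≤ (16 c)^s`, `len Q ≤ c^s len P`.  Finally
`lsub L Q = lsub (adj * L) P = P(det L · X) = det L^s P` (homogeneity). -/
def AuxPoly : Prop :=
  ∀ L : Matrix (Fin 3) (Fin 3) ℤ, L.det ≠ 0 → ∃ K : ℝ, 1 ≤ K ∧ ∀ ε : ℝ, 0 < ε →
    ∃ m0 : ℕ, ∀ m : ℕ, m0 ≤ m → ∀ r : Fin m → ℕ, (∀ h, 0 < r h) →
      ∃ P Q : MvPolynomial (Fin m × Fin 3) ℤ, P ≠ 0 ∧ MHom r P ∧ MHom r Q ∧ Bal ε r P ∧
        Bal ε r Q ∧ len P ≤ K ^ (∑ h, r h) ∧ len Q ≤ K ^ (∑ h, r h) ∧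
        lsub (fun _ => L) Q = C (L.det ^ (∑ h, r h)) * P

/-! ## Group E -/

/-- **E1, divisibility of the coefficients.**

Proof.  Let `G = lsub (cmat u v c) P` and let `G'` be obtained from `G` by `X_(h,2) ↦ p^(e_(h,c_h)) X_(h,2)`.
Then `coeff κ G' = p^(∑ κ_(h,2) e_(h,c_h)) coeff κ G`.  On the other hand `G'` is `P` evaluated at the
linear forms `u_i X_(h,0) + v_i X_(h,1) + [i = c_h] p^(e_(h,c_h)) X_(h,2)`, which are divisible by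
`p^(e_(h,i))`, so `G'` is divisible by `p^(min_j ∑ j_(h,i) e_(h,i))`, and
`p^(E + ∑ κ e) ∣ p^(∑ κ e) coeff κ G`. -/
def DivCoeff : Prop :=
  ∀ (m E : ℕ) (p : ℕ) (P : MvPolynomial (Fin m × Fin 3) ℤ) (u v : Fin m → Fin 3 → ℤ)
    (c : Fin m → Fin 3) (e : Fin m → Fin 3 → ℕ) (κ : (Fin m × Fin 3) →₀ ℕ), 0 < p →
    (∀ h i, (p : ℤ) ^ e h i ∣ u h i ∧ (p : ℤ) ^ e h i ∣ v h i) →
    (∀ j ∈ P.support, E + ∑ h, κ (h, 2) * e h (c h) ≤ ∑ h, ∑ i, j (h, i) * e h i) →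
    (p : ℤ) ^ E ∣ coeff κ (lsub (fun h => cmat (u h) (v h) (c h)) P)

/-- **E2, size of the coefficients.**

Proof (from R1).  `lsub (cmat u v c) (lsub L Q)` is `Q` evaluated at the linear forms
`L_i(u_h) X_(h,0) + L_i(v_h) X_(h,1) + L_(i,c_h) X_(h,2)`; with the weights `(1, 1, ρ_h)` their
weighted lengths are at most `A_(h,i) + A_(h,i) + |L_(i,c_h)| ρ_h ≤ b A_(h,i)`.  Use (c), (d), (f)
of R1. -/
def ArchCoeff : Prop :=
  ∀ (m : ℕ) (L : Matrix (Fin 3) (Fin 3) ℤ) (Q : MvPolynomial (Fin m × Fin 3) ℤ)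
    (u v : Fin m → Fin 3 → ℤ) (c : Fin m → Fin 3) (A : Fin m → Fin 3 → ℝ) (ρ : Fin m → ℝ) (b : ℝ)
    (κ : (Fin m × Fin 3) →₀ ℕ), (∀ h i, 0 < A h i) → (∀ h, 0 < ρ h) → (∀ h i, ρ h ≤ A h i) →
    (∀ i i', 2 + |((L i i' : ℤ) : ℝ)| ≤ b) →
    (∀ h i, |((L.mulVec (u h) i : ℤ) : ℝ)| ≤ A h i) →
    (∀ h i, |((L.mulVec (v h) i : ℤ) : ℝ)| ≤ A h i) →
    |((coeff κ (lsub (fun h => cmat (u h) (v h) (c h)) (lsub (fun _ => L) Q)) : ℤ) : ℝ)| *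
      ∏ h, ρ h ^ κ (h, 2) ≤ wlen (fun s => b * A s.1 s.2) Q

/-- **E3, vanishing of the low coefficients.**

Proof (from E1, E2).  `Λ = ∑ θ_ip log p`, `δ = Λ - ∑ α_i > 0`, `C0 = 2 + max(|α_i|, θ_ip)`,
`b = 2 + max |L_ij|`, `λ = ∑_p log p`.  Take `η = ε ≤ 1/6` with
`ε (10 + 18 C0 + 3 C0 λ) + η (2 C0 + 2 C0 λ) ≤ δ/9` and `t0` with `(2 (log K + log b) + λ)/t0 ≤ δ/9`,
`t0 ≥ 1`.  Suppose `∑_h κ_(h,2)/r_h ≤ η m`, `G = lsub (cmat u v c) P`, `coeff κ G ≠ 0`.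
(1) For `j` in the support of `P` and `p ∈ S`: `∑_(h,i) j_(h,i) e_(h,i,p) ≥ R m (∑_i θ_ip / 3 - 3 C0 ε)`
(for each `i`: trivial if `θ_ip ≤ ε`; else `e ≥ (θ - ε) T_h ≥ (θ - ε) R / r_h` and `Bal`).
`∑_h κ_(h,2) e_(h,c_h,p) ≤ ∑_h κ_(h,2) C0 T_h ≤ 2 C0 η R m`.  So E1 applies with
`E_p = ⌊R m (∑_i θ_ip/3 - 3 C0 ε - 2 C0 η)⌋₊` (if `E_p = 0` nothing is to be shown), and
`∏_p p^(E_p) ∣ coeff κ G` (coprime), `log |coeff κ G| ≥ R m (Λ/3 - (3 C0 ε + 2 C0 η) λ) - λ`.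
(2) `ρ_h = exp(-C0 T_h) ≤ A_(h,i)`.  For `j` in the support of `Q`, with
`∑_h j_(h,i)/r_h ≤ (1/3 + 2ε) m` (from `Bal` and `MHom`) and `R ≤ r_h T_h ≤ (1+ε) R`:
`∑_(h,i) j_(h,i) log A_(h,i) ≤ ∑_(h,i) j_(h,i) T_h (α_i + ε + C0) - C0 ∑_h r_h T_h
 ≤ m R (∑_i (α_i + ε + C0) (1+ε)(1/3+2ε) - C0) ≤ m R (∑ α_i / 3 + ε (10 + 18 C0))`.
So by E2 and `|coeff κ G| ≤ |det^(∑r) coeff κ G| = |coeff κ (lsub cmat (lsub L Q))|`:
`log |coeff κ G| ≤ (∑ r_h)(log K + log b) + m R (∑ α_i/3 + ε (10 + 18 C0)) + 2 C0 η R m`,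
with `∑ r_h ≤ 2 m R / t0` (`T_h ≥ t0`), and `λ ≤ λ R m / t0`.  Contradiction. -/
def Vanish : Prop :=
  ∀ (S : Finset ℕ) (L : Matrix (Fin 3) (Fin 3) ℤ) (θ : Fin 3 → ℕ → ℝ) (α : Fin 3 → ℝ) (K : ℝ),
    (∀ p ∈ S, p.Prime) → (∀ i, ∀ p ∈ S, 0 ≤ θ i p) →
    ∑ i, α i < ∑ i, ∑ p ∈ S, θ i p * Real.log p → 1 ≤ K → L.det ≠ 0 →
    ∃ ε : ℝ, 0 < ε ∧ ε ≤ 1 ∧ ∃ η : ℝ, 0 < η ∧ ∃ t0 : ℝ, 1 ≤ t0 ∧
      ∀ (m : ℕ) (R : ℝ) (T : Fin m → ℝ) (r : Fin m → ℕ) (e : Fin m → Fin 3 → ℕ → ℕ)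
        (A : Fin m → Fin 3 → ℝ) (u v : Fin m → Fin 3 → ℤ) (c : Fin m → Fin 3)
        (P Q : MvPolynomial (Fin m × Fin 3) ℤ),
        0 < m → t0 ≤ R → (∀ h, t0 ≤ T h) → (∀ h, 0 < r h) →
        (∀ h, R ≤ r h * T h ∧ r h * T h ≤ (1 + ε) * R) →
        (∀ h i, 0 < A h i ∧ |Real.log (A h i) / T h - α i| ≤ ε) →
        (∀ h i, ∀ p ∈ S, |(e h i p : ℝ) / T h - θ i p| ≤ ε) →
        (∀ h i, ∀ p ∈ S, (p : ℤ) ^ e h i p ∣ u h i ∧ (p : ℤ) ^ e h i p ∣ v h i) →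
        (∀ h i, |((L.mulVec (u h) i : ℤ) : ℝ)| ≤ A h i) →
        (∀ h i, |((L.mulVec (v h) i : ℤ) : ℝ)| ≤ A h i) →
        MHom r P → MHom r Q → Bal ε r P → Bal ε r Q → len Q ≤ K ^ (∑ h, r h) →
        lsub (fun _ => L) Q = C (L.det ^ (∑ h, r h)) * P →
        ∀ κ ∈ (lsub (fun h => cmat (u h) (v h) (c h)) P).support,
          η * m ≤ ∑ h, (κ (h, 2) : ℝ) / r h

/-! ## Group N -/

/-- **N1, choice of the coordinates.**

Proof.  Let `|M_c|` be maximal (so `M_c ≠ 0`), `a, b` the other two indices, `g = gcd(M_c, M_a)`,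
`g' = gcd(M_c, M_b)`.  `gcd(g, g')` divides all `M_i`, so it is `1`, and `g, g'` divide `M_c`; so
`g g' ≤ |M_c|` and one of them, say `g`, has `g² ≤ |M_c|`.  Take `c' = a`, `q = M_c / g`,
`p = - M_a / g`: `|q|² = M_c²/g² ≥ |M_c| ≥ |M_i|`. -/
def Coord : Prop :=
  ∀ M : Fin 3 → ℤ, M ≠ 0 → (∀ d : ℤ, (∀ i, d ∣ M i) → IsUnit d) →
    ∃ (c c' : Fin 3) (p q : ℤ), c ≠ c' ∧ M c ≠ 0 ∧ IsCoprime p q ∧ q ≠ 0 ∧
      p * M c = -(q * M c') ∧ ∀ i, |M i| ≤ (max |p| |q|) ^ 2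

/-- **N2, specialization.**

Proof.  Everything over `ℚ`.  Fix the third index `d h` in every block (`c, c', d` distinct).  For
rational `s_h, z_h, t_h` let `X_c = t - (M_c' s + M_d z)/M_c`, `X_c' = s`, `X_d = z`: the general
point `a u + b v + t e_c`, where `(s, z) = (a u_c' + b v_c', a u_d + b v_d)`; the `2 × 2` matrix is
invertible (if `s = z = 0` then `a u + b v` is a multiple of `e_c` orthogonal to `M`, so `0`, so
`a = b = 0`).  Hence `Ghat(s, z, t) := P(X)` is obtained from `G = lsub (cmat u v c) P` by a linear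
substitution of the variables `(h,0), (h,1)`: all exponents of the variables `t` in `Ghat` occur in
`G`, so they have weight `≥ τ`.  Let `ζ(j) = (j_(h,d h))_h` for `j` in the support of `P`, `k` a
minimal element (componentwise order) of the finite nonempty set of the `ζ(j)`, and
`F := ∑_{ζ(j) = k} P_j ∏_h x_h^(j_(h,c h))`.  Since `P` is multihomogeneous, `j` is determined by
`ζ(j)` and the `j_(h,c h)`; so `F ≠ 0`, `len F ≤ len P`, degrees `≤ r h`.  Put `s = 1` in `Ghat`: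
`∑_j P_j ∏_h (t_h - M_c'/M_c - (M_d/M_c) z_h)^(j_(h,c)) z_h^(ζ(j)_h)`; its coefficient of `z^k` only
gets contributions from `ζ(j) ≤ k`, i.e. `ζ(j) = k`, and equals `F(t_h - M_c'/M_c)`. -/
def Specialize : Prop :=
  ∀ (m : ℕ) (r : Fin m → ℕ) (τ : ℝ) (P : MvPolynomial (Fin m × Fin 3) ℤ)
    (u v M : Fin m → Fin 3 → ℤ) (c c' : Fin m → Fin 3), P ≠ 0 → MHom r P →
    (∀ h, c h ≠ c' h) → (∀ h, M h (c h) ≠ 0) → (∀ h, LinearIndependent ℤ ![u h, v h]) →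
    (∀ h, M h ⬝ᵥ u h = 0) → (∀ h, M h ⬝ᵥ v h = 0) →
    (∀ κ ∈ (lsub (fun h => cmat (u h) (v h) (c h)) P).support,
      τ ≤ ∑ h, (κ (h, 2) : ℝ) / r h) →
    ∃ F : MvPolynomial (Fin m) ℤ, F ≠ 0 ∧ (∀ h, F.degreeOf h ≤ r h) ∧ len F ≤ len P ∧
      IdxGe r τ (shift (fun h => -(M h (c' h) : ℚ) / (M h (c h) : ℚ)) (toQ F))

/-! ## Group A -/

/-- **A1, the planes have large height.**

Proof.  Suppose not: then there is a subsequence and `M_k ≠ 0` orthogonal to `u_k, v_k` with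
`log max|M_k| / T_k → 0`; let `M_k` be primitive (divide by the gcd; if `max|M_k|` is bounded, use
`0`), and, on a further subsequence, `I0 = {i : M_k i ≠ 0}` and `I1 = {i : N_i(M_k) ≠ 0}` constant,
where `N_i(x) = ((adjugate L)ᵀ x)_i`; so `N_i(u × v) = ((L u) × (L v))_i`.  Let
`w = u_k × v_k = g M_k`, `g ∈ ℤ`, `g ≠ 0`.
(a) For `i ∈ I1`: `|g| ≤ |N_i(w)| ≤ 2 A_j A_l` (`{i,j,l} = {0,1,2}`).
(b) `p^(e_j + e_l) ∣ w_i = g M_i`; for `i ∈ I0` this gives `p^(e_j+e_l) ∣ g · (p-part of M_i)`, so with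
`g' := ∏_p p^(max_{i ∈ I0} (e_jp + e_lp))`: `g' ≤ |g| max|M_k|^(#S)`.
(c) Let `M' := M_(k₀)` be a fixed member of the subsequence (`M'_i = 0` for `i ∉ I0`,
`N_i(M') = 0` for `i ∉ I1`).  Then `∏_p p^(e_0+e_1+e_2) ∣ g' (M' · u_k)` (each term
`g' M'_i u_i` is divisible), and
`det L · (M' · u_k) = ∑_i (L u)_i N_i(M')` gives
`|det L · g' (M' · u_k)| ≤ ∑_{i ∈ I1} A_i g' |N_i(M')| ≤ const · |g| max|M_k|^(#S) max_i A_i [i ∈ I1]
 ≤ const · max|M_k|^(#S) A_0 A_1 A_2`, which is smaller than `∏_p p^(e_0+e_1+e_2)` for large `k`, by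
`gap` (take logarithms, divide by `T_k`).  So `M' · u_k = 0`, likewise `M' · v_k = 0`, for
infinitely many `k`: contradiction with the hypothesis. -/
def HeightGrowth : Prop :=
  ∀ (S : Finset ℕ) (L : Matrix (Fin 3) (Fin 3) ℤ) (T : ℕ → ℝ) (e : ℕ → Fin 3 → ℕ → ℕ)
    (A : ℕ → Fin 3 → ℝ) (θ : Fin 3 → ℕ → ℝ) (α : Fin 3 → ℝ) (u v : ℕ → Fin 3 → ℤ),
    Sys S L T e A θ α → (∀ k, LinearIndependent ℤ ![u k, v k]) → InBox S L e A u →
    InBox S L e A v →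
    (∀ M : Fin 3 → ℤ, M ≠ 0 → ∀ᶠ k in atTop, ¬ (M ⬝ᵥ u k = 0 ∧ M ⬝ᵥ v k = 0)) →
    ∃ c : ℝ, 0 < c ∧ ∀ᶠ k in atTop, ∀ M : Fin 3 → ℤ, M ≠ 0 → M ⬝ᵥ u k = 0 → M ⬝ᵥ v k = 0 →
      ∃ i, Real.exp (c * T k) ≤ |(M i : ℝ)|

/-- **A2, planes.**

Proof (from R9, P2, E3, N1, N2, A1).  Suppose the conclusion fails; A1 gives `c`.  `θ_ip ≥ 0` as a
limit.  P2: `K₁` for `L`; E3 with `K₁`: `ε, η, t0`; P2: `m0` for `ε`; `m = max m0 1`, `τ = η m`; R9: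
`ω, K` for `m, τ`.  Let `t1 ≥ t0` with `c t1 ≥ 8 K (1 + m log K₁)`.  Choose indices `k_h` (`h < m`),
beyond all `eventually`s (A1; `|e/T - θ| ≤ ε`, `|log A / T - α| ≤ ε`; `T ≥ t1`), with
`T_h := T (k_h)` and `T_h ≥ (2/ω) T_(h')` for `h < h'` (choose `k_(m-1)` first).
`R = max(t0, max T_h / ε)`, `r_h = ⌈R / T_h⌉₊`: `R ≤ r_h T_h ≤ R + T_h ≤ (1+ε) R`;
`r_h ≤ 2R/T_h ≤ ω R / T_(h') ≤ ω r_(h')` for `h < h'`.  `P, Q` from P2.  For every `h` let `M_h`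
be a primitive vector orthogonal to `u, v` (divide `u × v` by its gcd), `c_h, c'_h, p_h, q_h`
from N1: `p_h / q_h = - M_c' / M_c`.  E3 and N2 give `F ≠ 0` with
`IdxGe r τ (shift (p_h/q_h) F)`, `len F ≤ len P`.  Let `B = 2 R (1 + m log K₁)/t1`: then
`r_h ≤ 2R/T_h ≤ B`, `log len F ≤ (∑ r_h) log K₁ ≤ B`, and
`r_h log max(|p_h|,|q_h|) ≥ r_h · (1/2) log max_i |M_i| ≥ r_h c T_h / 2 ≥ c R / 2 ≥ K B`.
This contradicts Roth's lemma. -/
def ThmA : Prop :=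
  ∀ (S : Finset ℕ) (L : Matrix (Fin 3) (Fin 3) ℤ) (T : ℕ → ℝ) (e : ℕ → Fin 3 → ℕ → ℕ)
    (A : ℕ → Fin 3 → ℝ) (θ : Fin 3 → ℕ → ℝ) (α : Fin 3 → ℝ) (u v : ℕ → Fin 3 → ℤ),
    Sys S L T e A θ α → (∀ k, LinearIndependent ℤ ![u k, v k]) → InBox S L e A u →
    InBox S L e A v →
    ∃ M : Fin 3 → ℤ, M ≠ 0 ∧ ∃ᶠ k in atTop, M ⬝ᵥ u k = 0 ∧ M ⬝ᵥ v k = 0

/-! ## Group B -/

/-- **B0, Minkowski's linear forms theorem** in three variables.

Proof.  `MeasureTheory.exists_ne_zero_mem_lattice_of_measure_mul_two_pow_le_measure` for the lattice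
spanned by the columns of `F` and the box `∏ [-c_i, c_i]` (see
`Pool/Agent/Lib/MP_211f72_nt/Mink.lean` for a very similar proof), covolume `|det F|`. -/
def Mink3 : Prop :=
  ∀ (F : Matrix (Fin 3) (Fin 3) ℝ) (c : Fin 3 → ℝ), F.det ≠ 0 → (∀ i, 0 < c i) →
    |F.det| ≤ ∏ i, c i → ∃ x : Fin 3 → ℤ, x ≠ 0 ∧ ∀ i, |F.mulVec (rv x) i| ≤ c i

/-- **B1, Minkowski's second theorem** for three variables (`‖·‖` is the sup norm of `Fin 3 → ℝ`).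

Proof (from B0).  For `G` invertible, `{x ∈ ℤ³ : ‖G x‖ ≤ b}` is finite, so successive minima
exist: `b 0` minimises `‖G x‖` over `x ≠ 0`, `b 1` over `x` not in `ℚ b_0`, `b 2` over `x` not in
`ℚ b_0 + ℚ b_1`.  Let `l_i = ‖G b_i‖`, and let `w_0, w_1, w_2` be the orthonormal basis obtained from
`G b_0, G b_1, G b_2` by Gram-Schmidt (Euclidean inner product).  If
`(1/2)^3 l_0 l_1 l_2 > |det G|`, B0 for the matrix `F = (w_i · G)_i` (`|det F| = |det G|`) and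
`c_i = l_i / 2` gives `x ≠ 0` in `ℤ³` with `|w_i · G x| ≤ l_i / 2`.  Let `x ∈ span(b_0..b_i)`, `i`
minimal; then `‖G x‖ ≥ l_i`, but `‖G x‖² ≤ ∑_{i' ≤ i} (w_i' · G x)² ≤ 3 l_i² / 4`, a contradiction.
So the statement holds with constant `8`. -/
def MinSec : Prop :=
  ∃ K : ℝ, 0 < K ∧ ∀ G : Matrix (Fin 3) (Fin 3) ℝ, G.det ≠ 0 →
    ∃ b : Fin 3 → (Fin 3 → ℤ), LinearIndependent ℤ b ∧
      (∀ x : Fin 3 → ℤ, x ≠ 0 → ‖G.mulVec (rv (b 0))‖ ≤ ‖G.mulVec (rv x)‖) ∧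
      ‖G.mulVec (rv (b 0))‖ ≤ ‖G.mulVec (rv (b 1))‖ ∧
      ‖G.mulVec (rv (b 1))‖ ≤ ‖G.mulVec (rv (b 2))‖ ∧
      ‖G.mulVec (rv (b 0))‖ * ‖G.mulVec (rv (b 1))‖ * ‖G.mulVec (rv (b 2))‖ ≤ K * |G.det|

/-- **B2, successive minima of one system.**

Proof (from B1).  `d_i = ∏_{p ∈ S} p^(e_ip)`; `x_i` is divisible by all `p^(e_ip)` iff `x_i = d_i x'_i`
(coprime).  Apply B1 to `G = diag(1/A_i) · L · diag(d_i)`, `det G = det L ∏ d_i / ∏ A_i`;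
`b n = (d_i b'_n,i)_i`, `l n = ‖G b'_n‖`. -/
def MinBox : Prop :=
  ∀ (S : Finset ℕ) (L : Matrix (Fin 3) (Fin 3) ℤ), (∀ p ∈ S, p.Prime) → L.det ≠ 0 →
    ∃ K : ℝ, 0 < K ∧ ∀ (e : Fin 3 → ℕ → ℕ) (A : Fin 3 → ℝ), (∀ i, 0 < A i) →
      ∃ (b : Fin 3 → (Fin 3 → ℤ)) (l : Fin 3 → ℝ), LinearIndependent ℤ b ∧
        (∀ n i, ∀ p ∈ S, (p : ℤ) ^ e i p ∣ b n i) ∧ (∀ n, 0 < l n) ∧
        (∀ n i, |((L.mulVec (b n) i : ℤ) : ℝ)| ≤ l n * A i) ∧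
        (∃ i, |((L.mulVec (b 0) i : ℤ) : ℝ)| = l 0 * A i) ∧ l 0 ≤ l 1 ∧ l 1 ≤ l 2 ∧
        l 0 * l 1 * l 2 * (∏ i, A i) ≤ K * ∏ i, ∏ p ∈ S, (p : ℝ) ^ e i p ∧
        ∀ x : Fin 3 → ℤ, x ≠ 0 → (∀ i, ∀ p ∈ S, (p : ℤ) ^ e i p ∣ x i) →
          ∃ i, l 0 * A i ≤ |((L.mulVec x i : ℤ) : ℝ)|

/-- **B3, distortion.**

Proof.  Let `n` be the integer nearest to `(L b1)_j / (L b0)_j`.  Then
`|(L (b1 - n b0))_j| ≤ (1/2) l0 A_j`, and `|n| ≤ l1/l0 + 1/2`, so for all `i`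
`|(L (b1 - n b0))_i| ≤ l1 A_i + (l1/l0 + 1/2) l0 A_i ≤ (5/2) l1 A_i`. -/
def Distort : Prop :=
  ∀ (L : Matrix (Fin 3) (Fin 3) ℤ) (A : Fin 3 → ℝ) (b0 b1 : Fin 3 → ℤ) (l0 l1 : ℝ) (j : Fin 3),
    (∀ i, 0 < A i) → 0 < l0 → l0 ≤ l1 → (∀ i, |((L.mulVec b0 i : ℤ) : ℝ)| ≤ l0 * A i) →
    |((L.mulVec b0 j : ℤ) : ℝ)| = l0 * A j → (∀ i, |((L.mulVec b1 i : ℤ) : ℝ)| ≤ l1 * A i) →
    ∃ n : ℤ, ∀ i,
      |((L.mulVec (b1 - n • b0) i : ℤ) : ℝ)| ≤ (if i = j then l0 else 5 / 2 * l1) * A i ∧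
      |((L.mulVec b0 i : ℤ) : ℝ)| ≤ (if i = j then l0 else 5 / 2 * l1) * A i

/-- **B4, cross products.**

Proof.  `(adjugate L)ᵀ (u × v) = (L u) × (L v)` (polynomial identity); components.
Divisibility: `(u × v)_i = u_j v_l - u_l v_j`.  Independence: if
`x (b_0 × b_1) + y (b_0 × b_2) = b_0 × (x b_1 + y b_2) = 0` then `x b_1 + y b_2` is parallel to `b_0`.
Last claim: `M` is orthogonal to `b_0 × b_1` and `b_0 × b_2`, which span over `ℚ` the orthogonal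
complement of `b_0`; so `M` is parallel to `b_0`. -/
def Cross : Prop :=
  (∀ (L : Matrix (Fin 3) (Fin 3) ℤ) (u v : Fin 3 → ℤ) (A : Fin 3 → ℝ) (a b : ℝ),
    (∀ i, |((L.mulVec u i : ℤ) : ℝ)| ≤ a * A i) → (∀ i, |((L.mulVec v i : ℤ) : ℝ)| ≤ b * A i) →
    (∀ i, 0 < A i) → 0 ≤ a → 0 ≤ b →
    ∀ i, |(((L.adjugateᵀ).mulVec (crossProduct u v) i : ℤ) : ℝ)|
      ≤ 2 * a * b * (A (i + 1) * A (i + 2))) ∧
  (∀ (p : ℕ) (e : Fin 3 → ℕ) (u v : Fin 3 → ℤ), (∀ i, (p : ℤ) ^ e i ∣ u i) →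
    (∀ i, (p : ℤ) ^ e i ∣ v i) →
    ∀ i, (p : ℤ) ^ (e (i + 1) + e (i + 2)) ∣ crossProduct u v i) ∧
  (∀ b : Fin 3 → (Fin 3 → ℤ), LinearIndependent ℤ b →
    LinearIndependent ℤ ![crossProduct (b 0) (b 1), crossProduct (b 0) (b 2)] ∧
    ∀ M : Fin 3 → ℤ, M ⬝ᵥ crossProduct (b 0) (b 1) = 0 → M ⬝ᵥ crossProduct (b 0) (b 2) = 0 →
      crossProduct M (b 0) = 0)

/-- **B5, points (the subspace theorem in the form needed here).**

Proof (from A2, B2, B3, B4).  Let `D = ∑ θ_ip log p - ∑ α_i > 0`.  `Sys` passes to subsequences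
(`k ↦ φ k`, `φ` strictly monotone), and it suffices to prove the conclusion for a subsequence.
For each `k` let `b_n, l_n` be as in B2 for `e k, A k`.  By the last clause of B2 and `InBox g`,
`l_0 ≤ 1`.
Case 0: `g k` and `b_0` are linearly independent for infinitely many `k`: A2 on that subsequence
with `u = b_0`, `v = g`.  Otherwise (for large `k`) `g k` is parallel to `b_0`, i.e.
`crossProduct (g k) (b_0) = 0`.
Bounds: `L b_0 ≠ 0` is an integer vector, so `1 ≤ l_0 max A_i` and `log l_0 ≥ - c T`; with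
`l_0 ≤ l_1 ≤ l_2` and the product bound all `log l_n / T` are bounded.  Pass to a subsequence with
`log l_n / T → x_n` and a constant index `j` with `|(L b_0)_j| = l_0 A_j`.  Then `x_0 ≤ 0`,
`x_0 ≤ x_1 ≤ x_2`, `x_0 + x_1 + x_2 ≤ D`.
Case 1: `x_0 + 2 x_1 < D`.  A2 with the box `A'_i = (if i = j then l_0 else 5/2 l_1) A_i`,
`u = b_0`, `v = b_1 - n b_0` (B3): `∑ α'_i = ∑ α_i + x_0 + 2 x_1 < ∑ θ log p`.  So `M · b_0 = 0`
infinitely often, and `M · g = 0` as `g` is parallel to `b_0 ≠ 0`.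
Case 2: `x_0 + 2 x_1 ≥ D`, so `x_1 ≥ D/2` and `x_0 + x_2 ≤ D/2`.  A2 for the matrix
`(adjugate L)ᵀ` (`det = det L ^ 2 ≠ 0`), exponents `e_(i+1) + e_(i+2)`, box
`2 l_0 l_2 A_(i+1) A_(i+2)`, `u = b_0 × b_1`, `v = b_0 × b_2` (B4):
`3 (x_0 + x_2) + 2 ∑ α < 2 ∑ θ log p = 2 D + 2 ∑ α` since `3 (x_0 + x_2) ≤ 3D/2`.  The resulting
`M` is parallel to `b_0` (B4) infinitely often, hence to `g`; take any `M' ≠ 0` with `M' · M = 0`;
then `M' · g = 0` infinitely often. -/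
def ThmB : Prop :=
  ∀ (S : Finset ℕ) (L : Matrix (Fin 3) (Fin 3) ℤ) (T : ℕ → ℝ) (e : ℕ → Fin 3 → ℕ → ℕ)
    (A : ℕ → Fin 3 → ℝ) (θ : Fin 3 → ℕ → ℝ) (α : Fin 3 → ℝ) (g : ℕ → Fin 3 → ℤ),
    Sys S L T e A θ α → (∀ k, g k ≠ 0) → InBox S L e A g →
    ∃ M : Fin 3 → ℤ, M ≠ 0 ∧ ∃ᶠ k in atTop, M ⬝ᵥ g k = 0

/-! ## Group D -/

/-- **D1, Mahler's theorem** (1957) for rational multiples of powers of `3/2`.

Proof (from B5; symmetric square).  `ξ = a/b`, `a ≠ 0`, `b > 0`.  Suppose there are infinitely many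
`n` (a strictly increasing sequence `n_k`) with integers `N` with
`|ξ (3/2)^n - N| < exp(-ε n)`.  B5 with `S = {2, 3}`, `T_k = n_k`, `g = (3^(2n), 3^n 2^n N, 2^(2n) N²)`,
`L = !![1,0,0; a,-b,0; a²,-2ab,b²]` (`det = -b³`), `e_0 = (0, 2n)`, `e_1 = (n, n)`, `e_2 = (2n, 0)`
(exponents of `2` and `3`), `A = (3^(2n), b 3^n 2^n exp(-ε n), b² 2^(2n) exp(-2 ε n))`:
`L g = (3^(2n), 3^n (a 3^n - b 2^n N), (a 3^n - b 2^n N)²)`, and
`∑ α = ∑ θ log p - 3 ε` (`log b / T → 0`).  So for some `(x, y, z) ≠ 0`, with `s_n = 2^n N / 3^n → ξ`: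
`x + y s_n + z s_n² = 0` for infinitely many of the `n`.  A nonzero polynomial of degree at most 2
has at most two zeros, so `s_n = s` is constant for infinitely many of these `n`, `s = ξ` by the
limit, i.e. `b 2^n N = a 3^n`, and `2^n ∣ a` for infinitely many `n`: contradiction. -/
def Mahler : Prop :=
  ∀ (ξ : ℚ) (ε : ℝ), ξ ≠ 0 → 0 < ε →
    ∀ᶠ n : ℕ in atTop, ∀ N : ℤ, Real.exp (-(ε * n)) ≤ |(ξ : ℝ) * (3 / 2) ^ n - N|

/-- **D2, differences of powers.**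

Proof (from B5, D1).  Suppose not: there are `n₁(k) < n₂(k)`, `n₂(k) → ∞`, integers `N_k` with
`|ξ ((3/2)^(n₂) - (3/2)^(n₁)) - N| < exp(-ε n₂)`; pass to a subsequence with `n₁/n₂` convergent and
either `n₂ - n₁ = κ` constant or `n₂ - n₁ → ∞`.  Constant `κ ≥ 1`: D1 for
`ξ ((3/2)^κ - 1) ≠ 0`, exponent `n₁ → ∞` and `exp(-ε n₂) ≤ exp(-ε n₁)`.  Let `κ = n₂ - n₁ → ∞`.
B5 with `ξ = a/b`, `S = {2, 3}`, `T = n₂`, `g = (3^(n₂), 2^κ 3^(n₁), 2^(n₂) N)`,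
`L = !![1,0,0; 0,1,0; a,-a,-b]`, `e_0 = (0, n₂)`, `e_1 = (κ, n₁)`, `e_2 = (n₂, 0)`,
`A = (3^(n₂), 2^κ 3^(n₁), b 2^(n₂) exp(-ε n₂))`.  So `(x, y, z) ≠ 0` with
`x 3^(n₂) + y 2^κ 3^(n₁) + z 2^(n₂) N = 0` infinitely often.  Write
`2^(n₂) N = ξ (3^(n₂) - 2^κ 3^(n₁)) + ν`, `|ν| ≤ 2^(n₂) exp(-ε n₂)`; divide by `3^(n₂)`:
`(x + z ξ) + (y - z ξ) (2/3)^κ + z ν / 3^(n₂) = 0`, `|ν| / 3^(n₂) ≤ (2/3)^(n₂) exp(-ε n₂)`.  Letting
`k → ∞`: `x + z ξ = 0`; dividing by `(2/3)^κ` (`κ ≤ n₂`): `y = z ξ`; so `z ν = 0`.  `z ≠ 0` (else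
`x = y = z = 0`), so `ν = 0`: `b 2^(n₂) N = a 3^(n₁) (3^κ - 2^κ)`, and `2^(n₂) ∣ a` for infinitely
many `n₂`, contradiction. -/
def ThmD : Prop :=
  ∀ (ξ : ℚ) (ε : ℝ), ξ ≠ 0 → 0 < ε →
    ∃ n0 : ℕ, ∀ n₁ n₂ : ℕ, n₁ < n₂ → n0 ≤ n₂ → ∀ N : ℤ,
      Real.exp (-(ε * n₂)) ≤ |(ξ : ℝ) * ((3 / 2) ^ n₂ - (3 / 2) ^ n₁) - N|

/-- **D3, words.**  `f(n)` is the fractional part and `M(n)` the integer part of `ξ (3/2)^n`.

Proof (from D2).  Let `ξ = a/b > 0`.  Choose `n0` such that `2^n0 > |a|`: then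
`ξ ((3/2)^(n₂) - (3/2)^(n₁))` is not an integer for `n0 ≤ n₁ < n₂` (else
`b 2^(n₂) N = a 3^(n₁) (3^κ - 2^κ)` and `2^(n₂) ∣ a`).  Given `C ≥ 1` let `ε = 1/(8 C)` and `n'` be the
constant of D2; the finitely many pairs `n0 ≤ n₁ < n₂ < n'` have a positive minimal distance to
the integers.  So for large `l`: for all `n0 ≤ n₁ < n₂ ≤ C l`, and all integers `N`:
`|ξ ((3/2)^(n₂) - (3/2)^(n₁)) - N| ≥ exp(-l/8)`  (*)  and `exp(-l/8) > (2/3)^(l-1)`,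
`exp(-l/8) > 6^(-l)` for large `l` (`log (3/2) > 0.4`, `log 6 > 1`).
(1) If `⌊6^l f(n₁)⌋ = ⌊6^l f(n₂)⌋` then `|f(n₁) - f(n₂)| < 6^(-l)`, contradiction to (*).
(2) `c(n) := 2 M(n+1) - 3 M(n) = 3 f(n) - 2 f(n+1)` lies in `{-1, 0, 1, 2}` and is determined by
`M(n) mod 6` and `M(n+1) mod 6`.  If `M(n₁+i) ≡ M(n₂+i) mod 6` for `i < l` then
`c(n₁+i) = c(n₂+i)` for `i < l - 1`, and from `f(n) = (c(n) + 2 f(n+1))/3`:
`|f(n₁) - f(n₂)| ≤ (2/3)^(l-1)`, contradiction to (*). -/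
def Words : Prop :=
  ∀ ξ : ℚ, 0 < ξ → ∃ n0 : ℕ, ∀ K : ℕ, ∀ᶠ l : ℕ in atTop, ∀ n₁ n₂ : ℕ, n0 ≤ n₁ → n₁ < n₂ →
    n₂ ≤ K * l →
    ⌊(6 : ℝ) ^ l * Int.fract ((ξ : ℝ) * (3 / 2) ^ n₁)⌋ ≠
      ⌊(6 : ℝ) ^ l * Int.fract ((ξ : ℝ) * (3 / 2) ^ n₂)⌋ ∧
    ∃ i < l, ¬ ⌊(ξ : ℝ) * (3 / 2) ^ (n₁ + i)⌋ ≡ ⌊(ξ : ℝ) * (3 / 2) ^ (n₂ + i)⌋ [ZMOD 6]

end MPcc0Sub
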